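import Pool.Agent.Helper38.CCG.Second

/-!
# Codes, one-coordinate changes and permutations of coordinates
-/

namespace Pool.Agent.Helper20.CG

open Module Pool.Agent.Helper38.CCG

variable {F : Type*} [Field F] {n : ℕ}

/-- `C` has dimension `m` and minimum distance at least `d`. -/
def SC (d m : ℕ) (C : Submodule F (Fin n → F)) : Prop := finrank F C = m ∧ DCode d C

/-- Every code of dimension `m` and distance `d` of length `n` extends to dimension `m + 1`. -/
def NI (F : Type*) [Field F] (d m n : ℕ) : Prop :=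
  ∀ C : Submodule F (Fin n → F), SC d m C → ∃ D : Submodule F (Fin n → F), SC d (m + 1) D ∧ C ≤ D

/-- The predicate `c` is constant along the edges of the dual graph. -/
def EdgeInv (d m : ℕ) (c : Submodule F (Fin n → F) → Prop) : Prop :=
  ∀ C C' D : Submodule F (Fin n → F), SC d m C → SC d m C' → SC d (m + 1) D → C ≤ D → C' ≤ D →
    (c C ↔ c C')

/-- The line spanned by the `i`-th unit vector. -/
def un (F : Type*) [Field F] {n : ℕ} (i : Fin n) : Submodule F (Fin n → F) :=
  Submodule.span F {Pi.single i (1 : F)}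

theorem mem_un {i : Fin n} {x : Fin n → F} : x ∈ un F i ↔ ∃ a : F, x = Pi.single i a := by
  unfold un
  rw [Submodule.mem_span_singleton]
  constructor
  · rintro ⟨a, rfl⟩
    refine ⟨a, ?_⟩
    ext j
    by_cases h : j = i
    · subst h; simp
    · simp [h]
  · rintro ⟨a, rfl⟩
    refine ⟨a, ?_⟩
    ext j
    by_cases h : j = i
    · subst h; simp
    · simp [h]

/-- `C` and `C'` agree outside the coordinate `i`. -/
def Ag (i : Fin n) (C C' : Submodule F (Fin n → F)) : Prop := C ≤ C' ⊔ un F i ∧ C' ≤ C ⊔ un F i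

theorem Ag.symm {i : Fin n} {C C' : Submodule F (Fin n → F)} (h : Ag i C C') : Ag i C' C :=
  ⟨h.2, h.1⟩

theorem mem_sup_un {i : Fin n} {C : Submodule F (Fin n → F)} {x : Fin n → F} :
    x ∈ C ⊔ un F i ↔ ∃ v ∈ C, ∀ j, j ≠ i → x j = v j := by
  rw [Submodule.mem_sup]
  constructor
  · rintro ⟨v, hv, y, hy, rfl⟩
    obtain ⟨a, rfl⟩ := mem_un.1 hy
    exact ⟨v, hv, fun j hj => by simp [hj]⟩
  · rintro ⟨v, hv, h⟩
    refine ⟨v, hv, x - v, mem_un.2 ⟨x i - v i, ?_⟩, by simp⟩
    ext j
    by_cases hj : j = i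
    · subst hj; simp
    · simp [hj, h j hj]

theorem wt_le_of_agree {i : Fin n} {x y : Fin n → F} (h : ∀ j, j ≠ i → x j = y j)
    (hy : y i ≠ 0 ∨ x i = 0) : wt x ≤ wt y := by
  unfold wt
  apply Set.ncard_le_ncard _ (Set.toFinite _)
  intro j hj
  rw [Function.mem_support] at hj ⊢
  by_cases hji : j = i
  · subst hji
    rcases hy with hy | hy
    · exact hy
    · exact absurd hy hj
  · rw [← h j hji]
    exact hj

theorem wt_le_succ_of_agree {i : Fin n} {x y : Fin n → F} (h : ∀ j, j ≠ i → x j = y j) :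
    wt x ≤ wt y + 1 := by
  unfold wt
  calc (Function.support x).ncard ≤ (insert i (Function.support y)).ncard := by
        apply Set.ncard_le_ncard _ (Set.toFinite _)
        intro j hj
        by_cases hji : j = i
        · exact Or.inl hji
        · refine Or.inr ?_
          rw [Function.mem_support, ← h j hji]
          exact hj
    _ ≤ _ := Set.ncard_insert_le _ _

theorem wt_single_le (i : Fin n) (a : F) : wt (Pi.single i a : Fin n → F) ≤ 1 := by
  have := wt_le_succ_of_agree (F := F) (i := i) (x := Pi.single i a) (y := 0)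
    (fun j hj => by simp [hj])
  rwa [wt_zero] at this

/-- Adding to a code one vector which has a nonzero coordinate where the code vanishes. -/
theorem finrank_sup_span {C : Submodule F (Fin n → F)} {w : Fin n → F} (hw : w ∉ C) :
    finrank F (C ⊔ Submodule.span F {w} : Submodule F (Fin n → F)) = finrank F C + 1 := by
  have hw0 : w ≠ 0 := fun h => hw (h ▸ C.zero_mem)
  have h1 := Submodule.finrank_sup_add_finrank_inf_eq C (Submodule.span F {w})
  have h2 : C ⊓ Submodule.span F {w} = ⊥ := by
    rw [eq_bot_iff]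
    rintro x ⟨hx1, hx2⟩
    obtain ⟨a, rfl⟩ := Submodule.mem_span_singleton.1 hx2
    rw [Submodule.mem_bot]
    by_contra h
    have ha : a ≠ 0 := fun h0 => h (by rw [h0, zero_smul])
    exact hw ((C.smul_mem_iff ha).1 hx1)
  rw [h2, finrank_bot, add_zero, finrank_span_singleton hw0] at h1
  exact h1

theorem mem_sup_span {C : Submodule F (Fin n → F)} {w x : Fin n → F} :
    x ∈ C ⊔ Submodule.span F {w} ↔ ∃ v ∈ C, ∃ a : F, x = v + a • w := by
  rw [Submodule.mem_sup]
  constructor
  · rintro ⟨v, hv, y, hy, rfl⟩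
    obtain ⟨a, rfl⟩ := Submodule.mem_span_singleton.1 hy
    exact ⟨v, hv, a, rfl⟩
  · rintro ⟨v, hv, a, rfl⟩
    exact ⟨v, hv, a • w, Submodule.mem_span_singleton.2 ⟨a, rfl⟩, rfl⟩

theorem single_notMem {d m : ℕ} (hd : 2 ≤ d) {C : Submodule F (Fin n → F)} (hC : SC d m C)
    (i : Fin n) : (Pi.single i (1 : F) : Fin n → F) ∉ C := by
  intro h
  have h1 := hC.2 _ h (by
    intro h0
    have := congrFun h0 i
    simp at this)
  have := wt_single_le (F := F) i 1
  omega

theorem finrank_sup_un {d m : ℕ} (hd : 2 ≤ d) {C : Submodule F (Fin n → F)} (hC : SC d m C)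
    (i : Fin n) : finrank F (C ⊔ un F i : Submodule F (Fin n → F)) = m + 1 := by
  unfold un
  rw [finrank_sup_span (single_notMem hd hC i), hC.1]

/-- A subspace of the right dimension. -/
theorem exists_sub {m : ℕ} {D : Submodule F (Fin n → F)} (h : m ≤ finrank F D) {d : ℕ}
    (hD : DCode d D) : ∃ E : Submodule F (Fin n → F), SC d m E ∧ E ≤ D := by
  obtain ⟨E, hE, hE'⟩ := exists_le_finrank D h
  exact ⟨E, ⟨hE', hD.mono hE⟩, hE⟩

theorem exists_sub_ker {m d : ℕ} {D : Submodule F (Fin n → F)} (hD : SC d (m + 1) D)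
    (g : (Fin n → F) →ₗ[F] F) :
    ∃ E : Submodule F (Fin n → F), SC d m E ∧ E ≤ D ∧ ∀ v ∈ E, g v = 0 := by
  have h1 := Submodule.finrank_sup_add_finrank_inf_eq D (LinearMap.ker g)
  have h2 := LinearMap.finrank_range_add_finrank_ker g
  have h3 : finrank F (LinearMap.range g) ≤ 1 := by
    have := Submodule.finrank_le (LinearMap.range g)
    rwa [finrank_self] at this
  have h4 := Submodule.finrank_le (D ⊔ LinearMap.ker g)
  have h5 := hD.1
  obtain ⟨E, hE, hE'⟩ := exists_sub (m := m) (D := D ⊓ LinearMap.ker g) (by omega)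
    (hD.2.mono inf_le_left)
  exact ⟨E, hE, hE'.trans inf_le_left, fun v hv => LinearMap.mem_ker.1 (hE' hv).2⟩

/-! ### Permutations of coordinates -/

/-- Permuting coordinates. -/
def pm (F : Type*) [Field F] {n : ℕ} (p : Equiv.Perm (Fin n)) : (Fin n → F) ≃ₗ[F] (Fin n → F) :=
  LinearEquiv.funCongrLeft F F p

@[simp] theorem pm_apply (p : Equiv.Perm (Fin n)) (x : Fin n → F) (i : Fin n) :
    pm F p x i = x (p i) := rfl

theorem wt_pm (p : Equiv.Perm (Fin n)) (x : Fin n → F) : wt (pm F p x) = wt x := by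
  unfold wt
  have : Function.support (pm F p x) = p.symm '' Function.support x := by
    ext i
    simp
  rw [this, Set.ncard_image_of_injective _ p.symm.injective]

/-- The permuted code. -/
def mp (p : Equiv.Perm (Fin n)) (C : Submodule F (Fin n → F)) : Submodule F (Fin n → F) :=
  C.map (pm F p : (Fin n → F) →ₗ[F] (Fin n → F))

theorem mem_mp {p : Equiv.Perm (Fin n)} {C : Submodule F (Fin n → F)} {x : Fin n → F} :
    x ∈ mp p C ↔ pm F p.symm x ∈ C := by
  unfold mp
  constructor
  · rintro ⟨v, hv, rfl⟩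
    have : pm F p.symm ((pm F p : (Fin n → F) →ₗ[F] (Fin n → F)) v) = v := by
      ext i
      simp
    rw [this]
    exact hv
  · intro h
    refine ⟨_, h, ?_⟩
    ext i
    simp

theorem mp_mono {p : Equiv.Perm (Fin n)} {C D : Submodule F (Fin n → F)} (h : C ≤ D) :
    mp p C ≤ mp p D := Submodule.map_mono h

theorem mp_mp (p q : Equiv.Perm (Fin n)) (C : Submodule F (Fin n → F)) :
    mp p (mp q C) = mp (q * p) C := by
  ext x
  rw [mem_mp, mem_mp, mem_mp]
  have : pm F q.symm (pm F p.symm x) = pm F (q * p).symm x := by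
    ext i
    simp only [pm_apply]
    rfl
  rw [this]

theorem mp_one (C : Submodule F (Fin n → F)) : mp 1 C = C := by
  ext x
  rw [mem_mp]
  rfl

theorem SC.mp {d m : ℕ} {C : Submodule F (Fin n → F)} (h : SC d m C) (p : Equiv.Perm (Fin n)) :
    SC d m (mp p C) := by
  refine ⟨?_, ?_⟩
  · unfold CG.mp
    rw [← h.1]
    exact LinearEquiv.finrank_map_eq (pm F p) C
  · intro u hu hu0
    have h1 := mem_mp.1 hu
    have h2 := h.2 _ h1 (by
      intro h0
      apply hu0
      exact (pm F p.symm).map_eq_zero_iff.1 h0)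
    rwa [wt_pm] at h2

end Pool.Agent.Helper20.CG
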