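import Pool.Agent.Helper20.CG.Par

/-!
# The equality of the two thresholds
-/

namespace Pool.Agent.Helper20.CG

open Module Pool.Agent.Helper38.CCG

/-- The dual form of the question for the distance `d` and the redundancy `k`. -/
def DQ (F : Type*) [Field F] (d k : ℕ) : Prop :=
  ∀ m n : ℕ, n = k + m → (∀ j : ℕ, 1 ≤ j → j ≤ m → NI F d j (k + j)) →
    ∀ c : Submodule F (Fin n → F) → Prop, EdgeInv d m c →
      ∀ C C' : Submodule F (Fin n → F), SC d m C → SC d m C' → (c C ↔ c C')

variable {F : Type*} [Field F]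

theorem dq_of_loc {d k : ℕ} (hd : 2 ≤ d) (hkd : d ≤ k)
    (hloc : ∀ m N : ℕ, N + 1 = k + m → Loc F d m N) : DQ F d k := by
  intro m n hn hNI c hc C C' hC hC'
  obtain ⟨N, rfl⟩ : ∃ N, n = N + 1 := ⟨n - 1, by omega⟩
  exact edge_const hd hkd hn hloc hNI hc hC hC'

theorem ni_of_no_isolated {t k j : ℕ}
    (h : ∀ C : Submodule F (Fin (k + j) → F), ¬ Isolated t k C) : NI F (t + 1) j (k + j) := by
  intro C hC
  have hX : IsCode t k (perp C) := by
    rw [isCode_iff, finrank_perp, perp_perp, hC.1]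
    exact ⟨by omega, hC.2⟩
  obtain ⟨_, M, dM, hM, hle⟩ := exists_dual_super hX (h _)
  rw [perp_perp] at hle
  exact ⟨M, ⟨by rw [hM]; omega, dM⟩, hle⟩

/-- The dual form gives connectedness. -/
theorem preconnected_of_dq {t k n : ℕ} (hk : 1 ≤ k) (hkn : k < n) (hq : DQ F (t + 1) k)
    (h : ∀ n' : ℕ, k < n' → n' ≤ n → ∀ C : Submodule F (Fin n' → F), ¬ Isolated t k C) :
    (Lam F t n k).Preconnected := by
  intro X Y
  have hSC : ∀ Z : {C : Submodule F (Fin n → F) // IsCode t k C}, SC (t + 1) (n - k) (perp Z.1) := by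
    intro Z
    refine ⟨?_, (isCode_iff.1 Z.2).2⟩
    rw [finrank_perp, Z.2.1]
  have h1 := hq (n - k) n (by omega)
    (fun j hj hjm => ni_of_no_isolated (h (k + j) (by omega) (by omega)))
    (fun C => Conn (t + 1) (n - k) (perp X.1) C) (by
      intro C C' D hC hC' hD hCD hC'D
      constructor
      · intro hh
        exact Relation.ReflTransGen.tail hh ⟨hC.1, hC'.1, D, hD.2, hD.1, hCD, hC'D⟩
      · intro hh
        exact Relation.ReflTransGen.tail hh ⟨hC'.1, hC.1, D, hD.2, hD.1, hC'D, hCD⟩)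
    (perp X.1) (perp Y.1) (hSC X) (hSC Y)
  exact reachable_of_conn hk X _ (h1.1 Relation.ReflTransGen.refl) Y rfl

/-- The dual form gives the equality of the thresholds. -/
theorem nu_eq_of_dq {t k : ℕ} (htk : t < k) (hq : DQ F (t + 1) k) : nu F t k = nuPlus F t k := by
  apply le_antisymm (nu_le_nuPlus htk)
  unfold nu
  apply le_sInf
  rintro m ⟨n, hn, hpre, rfl⟩
  by_contra hlt
  rw [not_le] at hlt
  apply hpre
  refine preconnected_of_dq (by omega) hn hq ?_
  intro n' hn' hn'n C hC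
  have h1 : nuPlus F t k ≤ (n' : ℕ∞) := sInf_le ⟨n', hn', ⟨C, hC⟩, rfl⟩
  have h2 : (n' : ℕ∞) ≤ n := by exact_mod_cast hn'n
  exact absurd hlt (not_lt.2 (h1.trans h2))

/-! ### Binary codes of even distance -/

/-- Adding a parity coordinate. -/
def hat (F : Type*) [Field F] (N : ℕ) : (Fin N → F) →ₗ[F] (Fin (N + 1) → F) where
  toFun v := Fin.cons (sg F N v) v
  map_add' v w := by
    ext l
    refine Fin.cases ?_ (fun l => ?_) l
    · simp
    · simp
  map_smul' a v := by
    ext l
    refine Fin.cases ?_ (fun l => ?_) l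
    · simp
    · simp

theorem hat_apply {N : ℕ} (v : Fin N → F) : hat F N v = Fin.cons (sg F N v) v := rfl

/-- Dropping the first coordinate. -/
def tl (F : Type*) [Field F] (N : ℕ) : (Fin (N + 1) → F) →ₗ[F] (Fin N → F) where
  toFun v := Fin.tail v
  map_add' _ _ := rfl
  map_smul' _ _ := rfl

theorem tl_apply {N : ℕ} (v : Fin (N + 1) → F) : tl F N v = Fin.tail v := rfl

theorem wt_tail {N : ℕ} (v : Fin (N + 1) → F) : wt v ≤ wt (Fin.tail v) + 1 := by
  have h : v = Fin.cons (v 0) (Fin.tail v) := (Fin.cons_self_tail v).symm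
  by_cases h0 : v 0 = 0
  · rw [h0] at h
    have : wt v = wt (Fin.tail v) := by
      conv_lhs => rw [h]
      exact wt_cons_zero _
    omega
  · have : wt v = 1 + wt (Fin.tail v) := by
      conv_lhs => rw [h]
      exact wt_cons_ne_zero h0 _
    omega

theorem sc_hat (h2 : ∀ a : F, a = 0 ∨ a = 1) {N d m : ℕ} (hd : Even (d + 1))
    {D : Submodule F (Fin N → F)} (hD : SC d m D) : SC (d + 1) m (D.map (hat F N)) := by
  refine ⟨?_, ?_⟩
  · have hinj : Function.Injective (hat F N) := by
      intro v w h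
      rw [hat_apply, hat_apply] at h
      exact (Fin.cons_injective2 h).2
    rw [← hD.1]
    exact (LinearEquiv.finrank_eq (Submodule.equivMapOfInjective _ hinj D)).symm
  · rintro _ ⟨v, hv, rfl⟩ hne
    have hv0 : v ≠ 0 := by
      rintro rfl
      exact hne (map_zero _)
    have h1 := hD.2 v hv hv0
    rw [hat_apply]
    rcases Nat.even_or_odd (wt v) with he | ho
    · rw [sg_eq h2, if_pos he, wt_cons_zero]
      have : wt v ≠ d := by
        rintro rfl
        exact (Nat.even_add_one.1 hd) he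
      omega
    · rw [sg_eq h2, if_neg (Nat.not_even_iff_odd.2 ho), wt_cons_ne_zero one_ne_zero]
      omega

theorem sc_tl {N d m : ℕ} (hd : 1 ≤ d) {A : Submodule F (Fin (N + 1) → F)}
    (hA : SC (d + 1) m A) : SC d m (A.map (tl F N)) := by
  have hwt : ∀ v ∈ A, v ≠ 0 → d ≤ wt (tl F N v) := by
    intro v hv hv0
    have h1 := hA.2 v hv hv0
    have h2 := wt_tail v
    rw [tl_apply]
    omega
  refine ⟨?_, ?_⟩
  · have hinj : Function.Injective ((tl F N).domRestrict A) := by
      rw [← LinearMap.ker_eq_bot, LinearMap.ker_eq_bot']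
      rintro ⟨v, hv⟩ h0
      by_contra hne
      have hv0 : v ≠ 0 := fun h => hne (Subtype.ext h)
      have h1 := hwt v hv hv0
      have h3 : tl F N v = 0 := h0
      rw [h3, wt_zero] at h1
      omega
    have h1 := LinearMap.finrank_range_of_inj hinj
    rw [LinearMap.range_domRestrict] at h1
    rw [h1, hA.1]
  · rintro _ ⟨v, hv, rfl⟩ hne
    exact hwt v hv (by
      rintro rfl
      exact hne (map_zero _))

/-- Over the binary field the question for an odd `t` follows from the one for `t - 1`. -/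
theorem dq_odd (h2 : ∀ a : F, a = 0 ∨ a = 1) {d k : ℕ} (hd : 1 ≤ d) (hev : Even (d + 1))
    (hq : DQ F d k) : DQ F (d + 1) (k + 1) := by
  intro m n hn hNI c hc C C' hC hC'
  obtain ⟨N, rfl⟩ : ∃ N, n = N + 1 := ⟨n - 1, by omega⟩
  rcases Nat.eq_zero_or_pos m with rfl | hm
  · have h1 : C = ⊥ := Submodule.finrank_eq_zero.1 hC.1
    have h3 : C' = ⊥ := Submodule.finrank_eq_zero.1 hC'.1
    rw [h1, h3]
  have hNIm : NI F (d + 1) m (N + 1) := by
    rw [hn]
    exact hNI m hm le_rfl
  have hNI' : ∀ j : ℕ, 1 ≤ j → j ≤ m → NI F d j (k + j) := by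
    intro j hj hjm D hD
    have h1 := hNI j hj hjm
    rw [show k + 1 + j = k + j + 1 by omega] at h1
    obtain ⟨A, hA, hle⟩ := h1 _ (sc_hat h2 hev hD)
    refine ⟨A.map (tl F (k + j)), sc_tl hd hA, ?_⟩
    intro v hv
    exact ⟨hat F (k + j) v, hle ⟨v, hv, rfl⟩, rfl⟩
  have hc' : EdgeInv d m (fun D : Submodule F (Fin N → F) => c (D.map (hat F N))) := by
    intro D D' A hD hD' hA hDA hD'A
    exact hc _ _ (A.map (hat F N)) (sc_hat h2 hev hD) (sc_hat h2 hev hD') (sc_hat h2 hev hA)
      (Submodule.map_mono hDA) (Submodule.map_mono hD'A)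
  have hred : ∀ {C : Submodule F (Fin (N + 1) → F)}, SC (d + 1) m C →
      ∃ D : Submodule F (Fin N → F), SC d m D ∧ (c C ↔ c (D.map (hat F N))) := by
    intro C hC
    obtain ⟨A, hA, hCA⟩ := hNIm C hC
    obtain ⟨E, hE, hEA, hEs⟩ := exists_sub_ker hA (sg F (N + 1))
    refine ⟨E.map (tl F N), sc_tl hd hE, ?_⟩
    have heq : (E.map (tl F N)).map (hat F N) = E := by
      have key : ∀ v ∈ E, hat F N (tl F N v) = v := by
        intro v hv
        have h1 := hEs v hv
        rw [sg_apply, Fin.sum_univ_succ] at h1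
        rw [hat_apply, tl_apply]
        have h3 : sg F N (Fin.tail v) = v 0 := by
          rw [sg_apply]
          have h4 : (∑ i, Fin.tail v i) = ∑ i : Fin N, v i.succ := rfl
          rw [h4, ← neg_self h2 (v 0)]
          linear_combination h1
        rw [h3, Fin.cons_self_tail]
      ext x
      constructor
      · rintro ⟨_, ⟨v, hv, rfl⟩, rfl⟩
        have := key v hv
        rw [this]
        exact hv
      · intro hx
        exact ⟨_, ⟨x, hx, rfl⟩, key x hx⟩
    rw [heq]
    exact hc C E A hC hE hA hCA hEA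
  obtain ⟨D, hD, e⟩ := hred hC
  obtain ⟨D', hD', e'⟩ := hred hC'
  have h1 := hq m N (by omega) hNI' _ hc' D D' hD hD'
  exact e.trans (h1.trans e'.symm)

/-! ### The converse: from the thresholds to the dual form -/

/-- Connectedness gives the dual form. -/
theorem const_of_preconnected {t k m n : ℕ} (hk : 1 ≤ k) (hn : n = k + m)
    (h : (Lam F t n k).Preconnected) {c : Submodule F (Fin n → F) → Prop}
    (hc : EdgeInv (t + 1) m c) {C C' : Submodule F (Fin n → F)} (hC : SC (t + 1) m C)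
    (hC' : SC (t + 1) m C') : c C ↔ c C' := by
  have hX : ∀ {C : Submodule F (Fin n → F)}, SC (t + 1) m C → IsCode t k (perp C) := by
    intro C hC
    rw [isCode_iff, finrank_perp, perp_perp, hC.1]
    exact ⟨by omega, hC.2⟩
  obtain ⟨p⟩ := h ⟨perp C, hX hC⟩ ⟨perp C', hX hC'⟩
  have key : ∀ (X Y : {C : Submodule F (Fin n → F) // IsCode t k C}),
      (Lam F t n k).Walk X Y → (c (perp X.1) ↔ c (perp Y.1)) := by
    intro X Y p
    induction p with
    | nil => exact Iff.rfl
    | @cons X Y Z hadj _ ih =>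
      refine Iff.trans ?_ ih
      obtain ⟨_, hD⟩ := hadj
      have hs : ∀ Z : {C : Submodule F (Fin n → F) // IsCode t k C}, SC (t + 1) m (perp Z.1) := by
        intro Z
        refine ⟨?_, (isCode_iff.1 Z.2).2⟩
        rw [finrank_perp, Z.2.1]
        omega
      refine hc _ _ (perp (X.1 ⊓ Y.1)) (hs X) (hs Y) ⟨?_, (isCode_iff.1 hD).2⟩
        (perp_anti inf_le_left) (perp_anti inf_le_right)
      rw [finrank_perp, hD.1]
      omega
  have := key _ _ p
  rwa [perp_perp, perp_perp] at this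

/-- If the thresholds agree, then the dual form holds. -/
theorem dq_of_nu_eq {t k : ℕ} (htk : t < k) (h : nu F t k = nuPlus F t k) : DQ F (t + 1) k := by
  intro m n hn hNI c hc C C' hC hC'
  rcases Nat.eq_zero_or_pos m with rfl | hm
  · have h1 : C = ⊥ := Submodule.finrank_eq_zero.1 hC.1
    have h3 : C' = ⊥ := Submodule.finrank_eq_zero.1 hC'.1
    rw [h1, h3]
  have hplus : (n : ℕ∞) < nuPlus F t k := by
    unfold nuPlus
    by_contra hle
    rw [not_lt] at hle
    -- some element of the set is at most `n`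
    obtain ⟨x, hx, hxn⟩ : ∃ x ∈ {m : ℕ∞ | ∃ n : ℕ, k < n ∧
        (∃ C : Submodule F (Fin n → F), Isolated t k C) ∧ m = n}, x ≤ (n : ℕ∞) := by
      by_contra hno
      push Not at hno
      have h1 : ((n + 1 : ℕ) : ℕ∞) ≤ sInf {m : ℕ∞ | ∃ n : ℕ, k < n ∧
          (∃ C : Submodule F (Fin n → F), Isolated t k C) ∧ m = n} := by
        apply le_sInf
        rintro x ⟨n', hn', hC', rfl⟩
        have h3 := hno _ ⟨n', hn', hC', rfl⟩
        have h4 : n < n' := by exact_mod_cast h3
        exact_mod_cast h4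
      have h5 := h1.trans hle
      have h6 : n + 1 ≤ n := by exact_mod_cast h5
      omega
    obtain ⟨n', hn', ⟨X, hX⟩, rfl⟩ := hx
    have hn'n : n' ≤ n := by exact_mod_cast hxn
    obtain ⟨j, rfl⟩ : ∃ j, n' = k + j := ⟨n' - k, by omega⟩
    have hS : SC (t + 1) j (perp X) := by
      refine ⟨?_, (isCode_iff.1 hX.1).2⟩
      rw [finrank_perp, hX.1.1]
      omega
    obtain ⟨D, hD, hle'⟩ := hNI j (by omega) (by omega) _ hS
    have hlt : perp D < X := by
      have h3 : perp D ≤ X := by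
        rw [← perp_perp X]
        exact perp_anti hle'
      refine lt_of_le_of_ne h3 fun h4 => ?_
      have h5 : finrank F (perp D) = k := by rw [h4, hX.1.1]
      rw [finrank_perp, hD.1] at h5
      omega
    refine hX.2 (perp D) hlt ?_
    rw [isCode_iff, finrank_perp, perp_perp, hD.1]
    exact ⟨by omega, hD.2⟩
  have hpre : (Lam F t n k).Preconnected := by
    by_contra hno
    have h1 : nu F t k ≤ (n : ℕ∞) := sInf_le ⟨n, by omega, hno, rfl⟩
    rw [h] at h1
    exact absurd hplus (not_lt.2 h1)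
  exact const_of_preconnected (by omega) hn hpre hc hC hC'

/-! ### The results -/

theorem main_three {k : ℕ} (hk : 3 < k) : nu F 3 k = nuPlus F 3 k :=
  nu_eq_of_dq hk (dq_of_loc (by omega) (by omega) fun _ _ _ => loc_four)

theorem main_four (h2 : ∀ a : F, a = 0 ∨ a = 1) {k : ℕ} (hk : 4 < k) :
    nu F 4 k = nuPlus F 4 k :=
  nu_eq_of_dq hk (dq_of_loc (by omega) (by omega) fun _ _ _ => loc_five h2)

theorem main_odd (h2 : ∀ a : F, a = 0 ∨ a = 1) {t k : ℕ} (htk : t < k) (ht : Even t)
    (h : nu F t k = nuPlus F t k) : nu F (t + 1) (k + 1) = nuPlus F (t + 1) (k + 1) :=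
  nu_eq_of_dq (by omega) (dq_odd h2 (by omega) (by
    obtain ⟨r, rfl⟩ := ht
    exact ⟨r + 1, by ring⟩) (dq_of_nu_eq htk h))

theorem main_five (h2 : ∀ a : F, a = 0 ∨ a = 1) {k : ℕ} (hk : 5 < k) :
    nu F 5 k = nuPlus F 5 k := by
  obtain ⟨K, rfl⟩ : ∃ K, k = K + 1 := ⟨k - 1, by omega⟩
  exact main_odd h2 (by omega) (by decide) (main_four h2 (by omega))

end Pool.Agent.Helper20.CG
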