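import Pool.Agent.Helper20.CG.Step

/-!
# The local statement: lifts of a code with a zero coordinate
-/

namespace Pool.Agent.Helper20.CG

open Module Pool.Agent.Helper38.CCG

variable {F : Type*} [Field F] {N : ℕ}

/-- The lift of `W` by the vector `x` with a one in front. -/
def pt (W : Submodule F (Fin N → F)) (x : Fin N → F) : Submodule F (Fin (N + 1) → F) :=
  zc W ⊔ Submodule.span F {(Fin.cons 1 x : Fin (N + 1) → F)}

theorem cons_comb (a : F) (w x : Fin N → F) :
    (Fin.cons 0 w : Fin (N + 1) → F) + a • (Fin.cons 1 x : Fin (N + 1) → F)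
      = Fin.cons a (w + a • x) := by
  ext i
  refine Fin.cases ?_ (fun i => ?_) i
  · simp
  · simp

theorem mem_pt {W : Submodule F (Fin N → F)} {x : Fin N → F} {u : Fin (N + 1) → F} :
    u ∈ pt W x ↔ ∃ w ∈ W, ∃ a : F, u = Fin.cons a (w + a • x) := by
  unfold pt
  rw [mem_sup_span]
  constructor
  · rintro ⟨v, hv, a, rfl⟩
    obtain ⟨w, hw, rfl⟩ := mem_zc.1 hv
    exact ⟨w, hw, a, cons_comb a w x⟩
  · rintro ⟨w, hw, a, rfl⟩
    exact ⟨_, mem_zc.2 ⟨w, hw, rfl⟩, a, (cons_comb a w x).symm⟩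

theorem cons_one_notMem {W : Submodule F (Fin N → F)} {x : Fin N → F} :
    (Fin.cons 1 x : Fin (N + 1) → F) ∉ zc W := by
  intro h
  exact one_ne_zero (zc_zero _ h)

theorem sc_pt_iff {d m : ℕ} {W : Submodule F (Fin N → F)} (hW : SC d m W) {x : Fin N → F} :
    SC d (m + 1) (pt W x) ↔ ∀ w ∈ W, d ≤ 1 + wt (x + w) := by
  constructor
  · intro h w hw
    have h1 : (Fin.cons 1 (x + w) : Fin (N + 1) → F) ∈ pt W x :=
      mem_pt.2 ⟨w, hw, 1, by rw [one_smul, add_comm x w]⟩
    have h2 := h.2 _ h1 (by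
      intro h0
      have := congrFun h0 0
      simp at this)
    rwa [wt_cons_ne_zero one_ne_zero] at h2
  · intro h
    refine ⟨?_, ?_⟩
    · unfold pt
      rw [finrank_sup_span cons_one_notMem, hW.zc.1]
    · intro u hu hu0
      obtain ⟨w, hw, a, rfl⟩ := mem_pt.1 hu
      by_cases ha : a = 0
      · subst ha
        rw [zero_smul, add_zero] at hu0 ⊢
        exact hW.zc.2 _ (mem_zc.2 ⟨w, hw, rfl⟩) hu0
      · rw [wt_cons_ne_zero ha]
        have h1 := h _ (W.smul_mem a⁻¹ hw)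
        have h2 : w + a • x = a • (x + a⁻¹ • w) := by
          rw [smul_add, smul_smul, mul_inv_cancel₀ ha, one_smul, add_comm]
        rw [h2, wt_smul ha]
        exact h1

/-- Every lift has the class of some `pt W x`. -/
theorem exists_pt {d m : ℕ} {Φ : Submodule F (Fin (N + 1) → F) → Prop} (hΦ : Inv d (m + 1) Φ)
    {W : Submodule F (Fin N → F)} (hW : SC d m W) {V : Submodule F (Fin (N + 1) → F)}
    (hV : SC d (m + 1) V) (h : zc W ≤ V) :
    ∃ x : Fin N → F, SC d (m + 1) (pt W x) ∧ (Φ V ↔ Φ (pt W x)) := by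
  obtain ⟨w, hw, hSC, hag⟩ := fix (i := 0) hW.zc hW.zc hV h zc_zero ⟨le_sup_left, le_sup_left⟩
  have hw' : w = Fin.cons 1 (Fin.tail w) := by
    rw [← hw, Fin.cons_self_tail]
  have heq : zc W ⊔ Submodule.span F {w} = pt W (Fin.tail w) := by
    unfold pt
    rw [← hw']
  rw [heq] at hSC hag
  exact ⟨_, hSC, hΦ.one 0 V _ hV hSC hag⟩

/-- Two far points have the same class. -/
theorem class_far {d m : ℕ} {Φ : Submodule F (Fin (N + 1) → F) → Prop} (hΦ : Inv d (m + 1) Φ)
    {W : Submodule F (Fin N → F)} (hW : SC d m W) {x y : Fin N → F}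
    (hx : SC d (m + 1) (pt W x)) (hy : SC d (m + 1) (pt W y))
    (h : ∀ (a : F), ∀ w ∈ W, d ≤ 2 + wt (y + a • x + w)) : Φ (pt W x) ↔ Φ (pt W y) := by
  have hy' := (sc_pt_iff hW).1 hy
  set e : Fin (N + 1 + 1) → F := Fin.cons 1 (Fin.cons 0 y : Fin (N + 1) → F) with he
  set A : Submodule F (Fin (N + 1 + 1) → F) := zc (pt W x) ⊔ Submodule.span F {e} with hA
  have hel : ∀ (a b : F) (w : Fin N → F),
      (Fin.cons 0 (Fin.cons a (w + a • x) : Fin (N + 1) → F) : Fin (N + 1 + 1) → F) + b • e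
        = Fin.cons b (Fin.cons a (w + a • x + b • y) : Fin (N + 1) → F) := by
    intro a b w
    ext i
    refine Fin.cases ?_ (fun i => ?_) i
    · simp [he]
    · refine Fin.cases ?_ (fun i => ?_) i
      · simp [he]
      · simp [he]
  have hSC : SC d (m + 1 + 1) A := by
    refine ⟨?_, ?_⟩
    · rw [hA, finrank_sup_span cons_one_notMem, hx.zc.1]
    · intro u hu hu0
      obtain ⟨v, hv, b, rfl⟩ := mem_sup_span.1 hu
      by_cases hb : b = 0
      · subst hb
        rw [zero_smul, add_zero] at hu0 ⊢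
        exact hx.zc.2 _ hv hu0
      obtain ⟨v', hv', rfl⟩ := mem_zc.1 hv
      obtain ⟨w, hw, a, rfl⟩ := mem_pt.1 hv'
      rw [hel, wt_cons_ne_zero hb]
      by_cases ha : a = 0
      · subst ha
        rw [wt_cons_zero, zero_smul, add_zero]
        have h1 := hy' _ (W.smul_mem b⁻¹ hw)
        have h2 : w + b • y = b • (y + b⁻¹ • w) := by
          rw [smul_add, smul_smul, mul_inv_cancel₀ hb, one_smul, add_comm]
        rw [h2, wt_smul hb]
        exact h1
      · rw [wt_cons_ne_zero ha]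
        have h1 := h (b⁻¹ * a) _ (W.smul_mem b⁻¹ hw)
        have h2 : w + a • x + b • y = b • (y + (b⁻¹ * a) • x + b⁻¹ • w) := by
          rw [smul_add, smul_add, smul_smul, smul_smul, ← mul_assoc, mul_inv_cancel₀ hb, one_mul,
            one_smul]
          abel
        rw [h2, wt_smul hb]
        omega
  refine hΦ.two A (Equiv.swap 0 1) _ _ hSC hx hy le_sup_left ?_
  intro u hu
  obtain ⟨v', hv', rfl⟩ := mem_zc.1 hu
  obtain ⟨w, hw, a, rfl⟩ := mem_pt.1 hv'
  rw [mem_mp]
  have h1 : pm F (Equiv.swap (0 : Fin (N + 1 + 1)) 1).symm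
      (Fin.cons 0 (Fin.cons a (w + a • y) : Fin (N + 1) → F))
      = Fin.cons 0 (Fin.cons 0 (w + (0 : F) • x) : Fin (N + 1) → F) + a • e := by
    rw [hel]
    ext i
    rw [pm_apply, Equiv.symm_swap]
    refine Fin.cases ?_ (fun i => ?_) i
    · rw [Equiv.swap_apply_left]
      rfl
    · refine Fin.cases ?_ (fun i => ?_) i
      · have : Equiv.swap (0 : Fin (N + 1 + 1)) 1 (Fin.succ 0) = 0 := Equiv.swap_apply_right 0 1
        rw [this]
        rfl
      · rw [Equiv.swap_apply_of_ne_of_ne (Fin.succ_ne_zero _)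
          (by intro h; exact Fin.succ_ne_zero i (Fin.succ_injective _ h))]
        simp
  rw [h1]
  exact mem_sup_span.2 ⟨_, mem_zc.2 ⟨_, mem_pt.2 ⟨w, hw, 0, rfl⟩, rfl⟩, a, rfl⟩

/-- It is enough to treat close points. -/
theorem loc_of_close {d m : ℕ} (hd : 3 ≤ d)
    (hclose : ∀ Φ : Submodule F (Fin (N + 1) → F) → Prop, Inv d (m + 1) Φ →
      ∀ W : Submodule F (Fin N → F), SC d m W → ∀ x z : Fin N → F,
        SC d (m + 1) (pt W x) → SC d (m + 1) (pt W (x + z)) → wt z ≤ d - 3 →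
          (Φ (pt W x) ↔ Φ (pt W (x + z)))) : Loc F d m N := by
  intro Φ hΦ W hW V V' hV hV' h h'
  obtain ⟨x, hx, ex⟩ := exists_pt hΦ hW hV h
  obtain ⟨y, hy, ey⟩ := exists_pt hΦ hW hV' h'
  refine ex.trans (Iff.trans ?_ ey.symm)
  by_cases hfar : ∀ (a : F), ∀ w ∈ W, d ≤ 2 + wt (y + a • x + w)
  · exact class_far hΦ hW hx hy hfar
  · push Not at hfar
    obtain ⟨a, w, hw, hlt⟩ := hfar
    have hx' := (sc_pt_iff hW).1 hx
    have hy' := (sc_pt_iff hW).1 hy
    have ha : a ≠ 0 := by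
      rintro rfl
      rw [zero_smul, add_zero] at hlt
      have := hy' w hw
      omega
    set x' : Fin N → F := -(a • x) - w with hx'def
    have hSC' : SC d (m + 1) (pt W x') := by
      rw [sc_pt_iff hW]
      intro w' hw'
      have h1 : x' + w' = (-a) • (x + (-a)⁻¹ • (w' - w)) := by
        rw [smul_add, smul_smul, mul_inv_cancel₀ (neg_ne_zero.2 ha), one_smul, hx'def, neg_smul]
        abel
      rw [h1, wt_smul (neg_ne_zero.2 ha)]
      exact hx' _ (W.smul_mem _ (W.sub_mem hw' hw))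
    have hag : Ag 0 (pt W x) (pt W x') := by
      constructor
      · intro u hu
        obtain ⟨w', hw', b, rfl⟩ := mem_pt.1 hu
        -- `w' + b x` is of the form `w'' + b' x'`
        refine mem_sup_un.2 ⟨Fin.cons (-(a⁻¹ * b)) ((w' - (a⁻¹ * b) • w) + (-(a⁻¹ * b)) • x'),
          mem_pt.2 ⟨_, W.sub_mem hw' (W.smul_mem _ hw), _, rfl⟩, fun l => ?_⟩
        refine Fin.cases (fun h => absurd rfl h) (fun l _ => ?_) l
        simp only [Fin.cons_succ, Pi.add_apply, Pi.smul_apply, Pi.sub_apply, smul_eq_mul, hx'def,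
          Pi.neg_apply]
        field_simp
        ring
      · intro u hu
        obtain ⟨w', hw', b, rfl⟩ := mem_pt.1 hu
        refine mem_sup_un.2 ⟨Fin.cons (-(b * a)) ((w' - b • w) + (-(b * a)) • x),
          mem_pt.2 ⟨_, W.sub_mem hw' (W.smul_mem _ hw), _, rfl⟩, fun l => ?_⟩
        refine Fin.cases (fun h => absurd rfl h) (fun l _ => ?_) l
        simp only [Fin.cons_succ, Pi.add_apply, Pi.smul_apply, Pi.sub_apply, smul_eq_mul, hx'def,
          Pi.neg_apply]
        ring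
    have h1 := hΦ.one 0 _ _ hx hSC' hag
    set z : Fin N → F := y + a • x + w with hz
    have hyz : y = x' + z := by
      rw [hz, hx'def]
      abel
    rw [h1, hyz]
    refine hclose Φ hΦ W hW x' z hSC' (hyz ▸ hy) ?_
    omega

theorem wt_le_one {z : Fin N → F} (hz : wt z ≤ 1) : z = 0 ∨ ∃ j, ∀ l, l ≠ j → z l = 0 := by
  unfold wt at hz
  rcases Nat.lt_or_ge (Function.support z).ncard 1 with h | h
  · left
    have h1 : (Function.support z).ncard = 0 := by omega
    rw [Set.ncard_eq_zero (Set.toFinite _), Function.support_eq_empty_iff] at h1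
    exact h1
  · right
    obtain ⟨j, hj⟩ := Set.ncard_eq_one.1 (le_antisymm hz h)
    refine ⟨j, fun l hl => ?_⟩
    by_contra h0
    have : l ∈ Function.support z := h0
    rw [hj] at this
    exact hl this

/-- Two points which agree outside `j`. -/
theorem ag_pt {W : Submodule F (Fin N → F)} {x z : Fin N → F} {j : Fin N}
    (hz : ∀ l, l ≠ j → z l = 0) : Ag j.succ (pt W x) (pt W (x + z)) := by
  constructor
  · intro u hu
    obtain ⟨w, hw, a, rfl⟩ := mem_pt.1 hu
    refine mem_sup_un.2 ⟨Fin.cons a (w + a • (x + z)), mem_pt.2 ⟨w, hw, a, rfl⟩, fun l => ?_⟩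
    refine Fin.cases (fun _ => rfl) (fun l hl => ?_) l
    have : z l = 0 := hz l (fun h => hl (by rw [h]))
    simp [this]
  · intro u hu
    obtain ⟨w, hw, a, rfl⟩ := mem_pt.1 hu
    refine mem_sup_un.2 ⟨Fin.cons a (w + a • x), mem_pt.2 ⟨w, hw, a, rfl⟩, fun l => ?_⟩
    refine Fin.cases (fun _ => rfl) (fun l hl => ?_) l
    have : z l = 0 := hz l (fun h => hl (by rw [h]))
    simp [this]

/-- The local statement for `t = 3`. -/
theorem loc_four {m : ℕ} : Loc F 4 m N := by
  apply loc_of_close (by omega)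
  intro Φ hΦ W _ x z hx hxz hz
  rcases wt_le_one (by omega : wt z ≤ 1) with rfl | ⟨j, hj⟩
  · rw [add_zero]
  · exact hΦ.one j.succ _ _ hx hxz (ag_pt hj)

end Pool.Agent.Helper20.CG
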