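import Pool.Agent.Helper20.CG.Fin

/-!
# One more level of extendability
-/

namespace Pool.Agent.Helper20.CG

open Module Pool.Agent.Helper38.CCG

variable {F : Type*} [Field F] {N : ℕ}

theorem wt_add_le {n : ℕ} (x y : Fin n → F) : wt (x + y) ≤ wt x + wt y := by
  unfold wt
  calc (Function.support (x + y)).ncard ≤ (Function.support x ∪ Function.support y).ncard :=
        Set.ncard_le_ncard (Function.support_add x y) (Set.toFinite _)
    _ ≤ _ := Set.ncard_union_le _ _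

theorem wt_split {n : ℕ} {z : Fin n → F} {k : ℕ} (hz : wt z ≤ k + 1) :
    ∃ z1 z2 : Fin n → F, z = z1 + z2 ∧ wt z1 ≤ 1 ∧ wt z2 ≤ k := by
  classical
  by_cases h0 : ∃ i, z i ≠ 0
  · obtain ⟨i, hi⟩ := h0
    refine ⟨Pi.single i (z i), z - Pi.single i (z i), by simp, wt_single_le i _, ?_⟩
    have h1 : Function.support (z - Pi.single i (z i)) ⊆ Function.support z \ {i} := by
      intro l hl
      rw [Function.mem_support, Pi.sub_apply] at hl
      by_cases hli : l = i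
      · subst hli
        simp at hl
      · refine ⟨?_, hli⟩
        rw [Pi.single_eq_of_ne hli, sub_zero] at hl
        exact hl
    have h2 := Set.ncard_le_ncard h1 (Set.toFinite _)
    have h3 : (Function.support z \ {i}).ncard = (Function.support z).ncard - 1 :=
      Set.ncard_sdiff_singleton_of_mem hi
    unfold wt at hz ⊢
    omega
  · push Not at h0
    refine ⟨0, z, by simp, by rw [wt_zero]; omega, ?_⟩
    have : z = 0 := funext h0
    rw [this, wt_zero]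
    omega

/-- The distance of `x` from `W` is at least `d - 1`. -/
def Pp (d : ℕ) (W : Submodule F (Fin N → F)) (x : Fin N → F) : Prop :=
  ∀ w ∈ W, d ≤ 1 + wt (x + w)

/-- Every nonzero combination of `x` and `y` using `y` has distance at least `d - 2` from `W`. -/
def Fa (d : ℕ) (W : Submodule F (Fin N → F)) (x y : Fin N → F) : Prop :=
  ∀ (a : F), ∀ w ∈ W, d ≤ 2 + wt (y + a • x + w)

theorem cons_add' {n : ℕ} (a b : F) (x y : Fin n → F) :
    (Fin.cons a x : Fin (n + 1) → F) + Fin.cons b y = Fin.cons (a + b) (x + y) := by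
  ext i
  refine Fin.cases ?_ (fun i => ?_) i
  · simp
  · simp

theorem cons_smul' {n : ℕ} (a b : F) (x : Fin n → F) :
    b • (Fin.cons a x : Fin (n + 1) → F) = Fin.cons (b * a) (b • x) := by
  ext i
  refine Fin.cases ?_ (fun i => ?_) i
  · simp
  · simp

theorem cons_eq_zero' {n : ℕ} {a : F} {x : Fin n → F} :
    (Fin.cons a x : Fin (n + 1) → F) = 0 ↔ a = 0 ∧ x = 0 := by
  constructor
  · intro h
    refine ⟨by simpa using congrFun h 0, ?_⟩
    ext l
    simpa using congrFun h l.succ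
  · rintro ⟨rfl, rfl⟩
    ext l
    refine Fin.cases rfl (fun l => rfl) l

theorem wt_cons_le {n : ℕ} (a : F) (x : Fin n → F) : wt (Fin.cons a x : Fin (n + 1) → F) ≤ 1 + wt x := by
  by_cases ha : a = 0
  · rw [ha, wt_cons_zero]
    omega
  · rw [wt_cons_ne_zero ha]

theorem exists_not_mem {n d m : ℕ} {C D : Submodule F (Fin n → F)} (hC : SC d m C)
    (hD : SC d (m + 1) D) : ∃ g ∈ D, g ∉ C := by
  by_contra h
  push Not at h
  have := Submodule.finrank_mono (show D ≤ C from h)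
  rw [hC.1, hD.1] at this
  omega

/-- The code `W` with the vector `(1, 1, p)` added. -/
theorem sc_two {d m : ℕ} {W : Submodule F (Fin N → F)} (hW : SC d m W) {p : Fin N → F}
    (hp : ∀ w ∈ W, d ≤ 2 + wt (p + w)) : SC d (m + 1) (pt (zc W) (Fin.cons 1 p)) := by
  rw [sc_pt_iff hW.zc]
  intro w hw
  obtain ⟨w', hw', rfl⟩ := mem_zc.1 hw
  rw [cons_add', add_zero, wt_cons_ne_zero one_ne_zero]
  have := hp w' hw'
  omega

/-- A partner for a vector at distance at least `d - 2`. -/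
theorem exists_partner {d m : ℕ} {W : Submodule F (Fin N → F)} (hW : SC d m W)
    (hNI : NI F d (m + 1) (N + 1 + 1)) {p : Fin N → F} (hp : ∀ w ∈ W, d ≤ 2 + wt (p + w)) :
    ∃ v : Fin N → F, Pp d W v ∧ Fa d W v p := by
  obtain ⟨G, hG, hle⟩ := hNI _ (sc_two hW hp)
  obtain ⟨E, hE, hEG, hE0⟩ := exists_sub_ker hG
    (LinearMap.proj (Fin.succ 0) : (Fin (N + 1 + 1) → F) →ₗ[F] F)
  obtain ⟨g, hgE, hgW⟩ := exists_not_mem hW.zc.zc hE
  have hg1 : g (Fin.succ 0) = 0 := hE0 g hgE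
  have hgG := hEG hgE
  obtain ⟨γ, v, rfl⟩ : ∃ (γ : F) (v : Fin N → F), g = Fin.cons γ (Fin.cons 0 v : Fin (N + 1) → F) := by
    refine ⟨g 0, fun l => g l.succ.succ, ?_⟩
    ext l
    refine Fin.cases rfl (fun l => ?_) l
    refine Fin.cases ?_ (fun l => rfl) l
    rw [hg1]
    rfl
  have hWG : ∀ w ∈ W, (Fin.cons 0 (Fin.cons 0 w : Fin (N + 1) → F) : Fin (N + 1 + 1) → F) ∈ G := by
    intro w hw
    apply hle
    exact mem_pt.2 ⟨Fin.cons 0 w, mem_zc.2 ⟨w, hw, rfl⟩, 0, by simp⟩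
  have hpG : (Fin.cons 1 (Fin.cons 1 p : Fin (N + 1) → F) : Fin (N + 1 + 1) → F) ∈ G := by
    apply hle
    exact mem_pt.2 ⟨0, (zc W).zero_mem, 1, by simp⟩
  refine ⟨v, ?_, ?_⟩
  · intro w hw
    have h1 := G.add_mem hgG (hWG w hw)
    rw [cons_add', cons_add', add_zero, add_zero] at h1
    have h2 := hG.2 _ h1 (by
      intro h0
      apply hgW
      obtain ⟨h3, h4⟩ := cons_eq_zero'.1 h0
      have h5 := (cons_eq_zero'.1 h4).2
      have h6 : v = -w := eq_neg_of_add_eq_zero_left h5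
      refine mem_zc.2 ⟨Fin.cons 0 v, mem_zc.2 ⟨v, ?_, rfl⟩, by rw [h3]⟩
      rw [h6]
      exact W.neg_mem hw)
    refine h2.trans ((wt_cons_le _ _).trans ?_)
    rw [wt_cons_zero]
  · intro a w hw
    have h1 := G.add_mem (G.add_mem hpG (G.smul_mem a hgG)) (hWG w hw)
    simp only [cons_smul', cons_add', mul_zero, add_zero] at h1
    have h2 := hG.2 _ h1 (by
      intro h0
      exact one_ne_zero (cons_eq_zero'.1 (cons_eq_zero'.1 h0).2).1)
    refine h2.trans ((wt_cons_le _ _).trans ?_)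
    rw [wt_cons_ne_zero one_ne_zero]
    omega

/-- A partner for `p` far from `x`. -/
theorem exists_partner_far {d m : ℕ} {W : Submodule F (Fin N → F)} (hW : SC d m W)
    (hNI : NI F d (m + 2) (N + 1 + 1 + 1)) {x p : Fin N → F} (hx : Pp d W x)
    (hp : ∀ w ∈ W, d ≤ 2 + wt (p + w))
    (hxp : ∀ (a : F), ∀ w ∈ W, d ≤ 3 + wt (p + a • x + w)) :
    ∃ v : Fin N → F, Pp d W v ∧ Fa d W x v ∧ Fa d W v p := by
  have hW2 := sc_two hW hp
  have hK : SC d (m + 1 + 1) (pt (pt (zc W) (Fin.cons 1 p))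
      (Fin.cons 0 (Fin.cons 0 x : Fin (N + 1) → F))) := by
    rw [sc_pt_iff hW2]
    intro w2 hw2
    obtain ⟨w1, hw1, b, rfl⟩ := mem_pt.1 hw2
    obtain ⟨w, hw, rfl⟩ := mem_zc.1 hw1
    rw [cons_smul', cons_add', cons_add', cons_add']
    by_cases hb : b = 0
    · subst hb
      have h1 := hx w hw
      simp only [zero_mul, add_zero, zero_smul, wt_cons_zero]
      exact h1
    · have h0 : (0 : F) + (0 + b * 1) ≠ 0 := by simpa using hb
      have h00 : (0 : F) + b ≠ 0 := by simpa using hb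
      rw [wt_cons_ne_zero h00, wt_cons_ne_zero h0]
      have h1 := hxp b⁻¹ _ (W.smul_mem b⁻¹ hw)
      have h2 : x + (w + b • p) = b • (p + b⁻¹ • x + b⁻¹ • w) := by
        rw [smul_add, smul_add, smul_smul, smul_smul, mul_inv_cancel₀ hb, one_smul, one_smul]
        abel
      rw [h2, wt_smul hb]
      omega
  obtain ⟨G, hG, hle⟩ := hNI _ hK
  obtain ⟨E1, hE1, hE1G, hE10⟩ := exists_sub_ker hG
    (LinearMap.proj 0 : (Fin (N + 1 + 1 + 1) → F) →ₗ[F] F)
  obtain ⟨E, hE, hEE, hE0⟩ := exists_sub_ker hE1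
    (LinearMap.proj (Fin.succ (Fin.succ 0)) : (Fin (N + 1 + 1 + 1) → F) →ₗ[F] F)
  obtain ⟨g, hgE, hgW⟩ := exists_not_mem hW.zc.zc.zc hE
  have hg2 : g (Fin.succ (Fin.succ 0)) = 0 := hE0 g hgE
  have hg0 : g 0 = 0 := hE10 g (hEE hgE)
  have hgG := hE1G (hEE hgE)
  obtain ⟨γ, v, rfl⟩ : ∃ (γ : F) (v : Fin N → F), g = Fin.cons 0
      (Fin.cons γ (Fin.cons 0 v : Fin (N + 1) → F) : Fin (N + 1 + 1) → F) := by
    refine ⟨g (Fin.succ 0), fun l => g l.succ.succ.succ, ?_⟩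
    ext l
    refine Fin.cases ?_ (fun l => ?_) l
    · rw [hg0]
      rfl
    refine Fin.cases rfl (fun l => ?_) l
    refine Fin.cases ?_ (fun l => rfl) l
    rw [hg2]
    rfl
  have hWG : ∀ w ∈ W, (Fin.cons 0 (Fin.cons 0 (Fin.cons 0 w : Fin (N + 1) → F) :
      Fin (N + 1 + 1) → F) : Fin (N + 1 + 1 + 1) → F) ∈ G := by
    intro w hw
    apply hle
    exact mem_pt.2 ⟨_, mem_pt.2 ⟨_, mem_zc.2 ⟨w, hw, rfl⟩, 0, rfl⟩, 0, by simp⟩
  have hpG : (Fin.cons 0 (Fin.cons 1 (Fin.cons 1 p : Fin (N + 1) → F) :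
      Fin (N + 1 + 1) → F) : Fin (N + 1 + 1 + 1) → F) ∈ G := by
    apply hle
    exact mem_pt.2 ⟨_, mem_pt.2 ⟨0, (zc W).zero_mem, 1, rfl⟩, 0, by simp⟩
  have hxG : (Fin.cons 1 (Fin.cons 0 (Fin.cons 0 x : Fin (N + 1) → F) :
      Fin (N + 1 + 1) → F) : Fin (N + 1 + 1 + 1) → F) ∈ G := by
    apply hle
    exact mem_pt.2 ⟨0, (pt (zc W) (Fin.cons 1 p)).zero_mem, 1, by simp⟩
  have hgw : ∀ w ∈ W, ∀ c : F, d ≤ wt (Fin.cons c (Fin.cons γ (Fin.cons (0 : F) (v + c • x + w) :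
      Fin (N + 1) → F) : Fin (N + 1 + 1) → F) : Fin (N + 1 + 1 + 1) → F) := by
    intro w hw c
    have h1 := G.add_mem (G.add_mem hgG (G.smul_mem c hxG)) (hWG w hw)
    simp only [cons_smul', cons_add', mul_one, mul_zero, add_zero, zero_add] at h1
    refine hG.2 _ h1 ?_
    intro h0
    obtain ⟨hc, h0⟩ := cons_eq_zero'.1 h0
    obtain ⟨h3, h0⟩ := cons_eq_zero'.1 h0
    have h5 := (cons_eq_zero'.1 h0).2
    rw [hc, zero_smul, add_zero] at h5
    have h6 : v = -w := eq_neg_of_add_eq_zero_left h5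
    apply hgW
    refine mem_zc.2 ⟨_, mem_zc.2 ⟨_, mem_zc.2 ⟨v, ?_, rfl⟩, rfl⟩, by rw [h3]⟩
    rw [h6]
    exact W.neg_mem hw
  refine ⟨v, ?_, ?_, ?_⟩
  · intro w hw
    have h2 := hgw w hw 0
    rw [wt_cons_zero, zero_smul, add_zero] at h2
    refine h2.trans ((wt_cons_le _ _).trans ?_)
    rw [wt_cons_zero]
  · intro a w hw
    have h2 := hgw w hw a
    have h3 := wt_cons_le γ (Fin.cons (0 : F) (v + a • x + w) : Fin (N + 1) → F)
    rw [wt_cons_zero] at h3
    have h4 := wt_cons_le a (Fin.cons γ (Fin.cons (0 : F) (v + a • x + w) : Fin (N + 1) → F) :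
      Fin (N + 1 + 1) → F)
    omega
  · intro a w hw
    have h1 := G.add_mem (G.add_mem hpG (G.smul_mem a hgG)) (hWG w hw)
    simp only [cons_smul', cons_add', mul_zero, add_zero] at h1
    have h2 := hG.2 _ h1 (by
      intro h0
      exact one_ne_zero (cons_eq_zero'.1 (cons_eq_zero'.1 (cons_eq_zero'.1 h0).2).2).1)
    rw [wt_cons_zero] at h2
    refine h2.trans ((wt_cons_le _ _).trans ?_)
    rw [wt_cons_ne_zero one_ne_zero]
    omega

end Pool.Agent.Helper20.CG
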