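import Pool.Agent.Helper20.CG.Off

/-!
# The local statement with one more level of extendability
-/

namespace Pool.Agent.Helper20.CG

open Module Pool.Agent.Helper38.CCG

variable {F : Type*} [Field F] {N : ℕ}

theorem wt_neg' {n : ℕ} (x : Fin n → F) : wt (-x) = wt x := by
  have h : (-x) = (-1 : F) • x := by rw [neg_one_smul]
  rw [h, wt_smul (neg_ne_zero.2 one_ne_zero)]

theorem wt_le_add_sub {n : ℕ} (x y : Fin n → F) : wt x ≤ wt y + wt (y - x) := by
  have h1 := wt_add_le y (-(y - x))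
  rw [wt_neg'] at h1
  have h2 : y + -(y - x) = x := by abel
  rwa [h2] at h1

/-- Two points which are far in the weaker sense have the same class. -/
theorem class_far_two {d m : ℕ} {Φ : Submodule F (Fin (N + 1) → F) → Prop} (hΦ : Inv d (m + 1) Φ)
    {W : Submodule F (Fin N → F)} (hW : SC d m W) (hNI : NI F d (m + 2) (N + 1 + 1 + 1))
    {x y : Fin N → F} (hx : SC d (m + 1) (pt W x)) (hy : SC d (m + 1) (pt W y))
    (h : ∀ (a : F), ∀ w ∈ W, d ≤ 3 + wt (y + a • x + w)) : Φ (pt W x) ↔ Φ (pt W y) := by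
  have hx' := (sc_pt_iff hW).1 hx
  have hy' := (sc_pt_iff hW).1 hy
  obtain ⟨v, hv, h1, h2⟩ := exists_partner_far hW hNI hx'
    (fun w hw => by have := hy' w hw; omega) h
  have hvS := (sc_pt_iff hW).2 hv
  exact (class_far hΦ hW hx hvS h1).trans (class_far hΦ hW hvS hy h2)

/-- A partner of `p` has the class of every point next to `p`. -/
theorem class_step {d m : ℕ} {Φ : Submodule F (Fin (N + 1) → F) → Prop} (hΦ : Inv d (m + 1) Φ)
    {W : Submodule F (Fin N → F)} (hW : SC d m W) (hNI : NI F d (m + 2) (N + 1 + 1 + 1))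
    {v p u : Fin N → F} (hv : Pp d W v) (hvp : Fa d W v p) (hu : Pp d W u)
    (hz : wt (u - p) ≤ 1) : Φ (pt W v) ↔ Φ (pt W u) := by
  refine class_far_two hΦ hW hNI ((sc_pt_iff hW).2 hv) ((sc_pt_iff hW).2 hu) ?_
  intro a w hw
  have h1 := hvp a w hw
  have h2 := wt_le_add_sub (p + a • v + w) (u + a • v + w)
  have h3 : u + a • v + w - (p + a • v + w) = u - p := by abel
  rw [h3] at h2
  omega

/-- Two points at distance at most three have the same class. -/
theorem class_close {d m : ℕ} {Φ : Submodule F (Fin (N + 1) → F) → Prop} (hΦ : Inv d (m + 1) Φ)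
    {W : Submodule F (Fin N → F)} (hW : SC d m W) (hNI1 : NI F d (m + 1) (N + 1 + 1))
    (hNI : NI F d (m + 2) (N + 1 + 1 + 1))
    {x z : Fin N → F} (hx : SC d (m + 1) (pt W x)) (hxz : SC d (m + 1) (pt W (x + z)))
    (hz : wt z ≤ 3) : Φ (pt W x) ↔ Φ (pt W (x + z)) := by
  have hx' := (sc_pt_iff hW).1 hx
  have hxz' := (sc_pt_iff hW).1 hxz
  obtain ⟨z1, r, rfl, hz1, hr⟩ := wt_split (k := 2) hz
  obtain ⟨z2, z3, rfl, hz2, hz3⟩ := wt_split (k := 1) hr
  -- the first middle point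
  have hp : ∀ w ∈ W, d ≤ 2 + wt (x + z1 + w) := by
    intro w hw
    have h1 := hx' w hw
    have h2 := wt_le_add_sub (x + w) (x + z1 + w)
    have h3 : x + z1 + w - (x + w) = z1 := by abel
    rw [h3] at h2
    omega
  obtain ⟨v, hv, hvp⟩ := exists_partner hW hNI1 hp
  have e1 : Φ (pt W v) ↔ Φ (pt W x) := by
    refine class_step hΦ hW hNI hv hvp hx' ?_
    have : x - (x + z1) = -z1 := by abel
    rw [this, wt_neg']
    exact hz1
  -- the second middle point
  have hp' : ∀ w ∈ W, d ≤ 2 + wt (x + z1 + z2 + w) := by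
    intro w hw
    have h1 := hxz' w hw
    have h2 := wt_le_add_sub (x + (z1 + (z2 + z3)) + w) (x + z1 + z2 + w)
    have h3 : x + z1 + z2 + w - (x + (z1 + (z2 + z3)) + w) = -z3 := by abel
    rw [h3, wt_neg'] at h2
    omega
  have hvp' : ∀ (a : F), ∀ w ∈ W, d ≤ 3 + wt (x + z1 + z2 + a • v + w) := by
    intro a w hw
    have h1 := hvp a w hw
    have h2 := wt_le_add_sub (x + z1 + a • v + w) (x + z1 + z2 + a • v + w)
    have h3 : x + z1 + z2 + a • v + w - (x + z1 + a • v + w) = z2 := by abel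
    rw [h3] at h2
    omega
  obtain ⟨v', hv', hvv', hvp''⟩ := exists_partner_far hW hNI hv hp' hvp'
  have e2 : Φ (pt W v) ↔ Φ (pt W v') :=
    class_far hΦ hW ((sc_pt_iff hW).2 hv) ((sc_pt_iff hW).2 hv') hvv'
  have e3 : Φ (pt W v') ↔ Φ (pt W (x + (z1 + (z2 + z3)))) := by
    refine class_step hΦ hW hNI hv' hvp'' hxz' ?_
    have : x + (z1 + (z2 + z3)) - (x + z1 + z2) = z3 := by abel
    rw [this]
    exact hz3
  exact e1.symm.trans (e2.trans e3)

/-- The local statement for `t ≤ 6`, if the codes of the next two dimensions extend. -/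
theorem loc_seven {d m : ℕ} (hd4 : 4 ≤ d) (hd7 : d ≤ 7) (hNI1 : NI F d (m + 1) (N + 1 + 1))
    (hNI : NI F d (m + 2) (N + 1 + 1 + 1)) : Loc F d m N := by
  intro Φ hΦ W hW V V' hV hV' h h'
  obtain ⟨x, hx, ex⟩ := exists_pt hΦ hW hV h
  obtain ⟨y, hy, ey⟩ := exists_pt hΦ hW hV' h'
  refine ex.trans (Iff.trans ?_ ey.symm)
  by_cases hfar : ∀ (a : F), ∀ w ∈ W, d ≤ 3 + wt (y + a • x + w)
  · exact class_far_two hΦ hW hNI hx hy hfar
  · push Not at hfar
    obtain ⟨a, w, hw, hlt⟩ := hfar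
    have hx' := (sc_pt_iff hW).1 hx
    have hy' := (sc_pt_iff hW).1 hy
    have ha : a ≠ 0 := by
      rintro rfl
      rw [zero_smul, add_zero] at hlt
      have := hy' w hw
      omega
    set x' : Fin N → F := -(a • x) - w with hx'def
    have hSC' : SC d (m + 1) (pt W x') := by
      rw [sc_pt_iff hW]
      intro w' hw'
      have h1 : x' + w' = (-a) • (x + (-a)⁻¹ • (w' - w)) := by
        rw [smul_add, smul_smul, mul_inv_cancel₀ (neg_ne_zero.2 ha), one_smul, hx'def, neg_smul]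
        abel
      rw [h1, wt_smul (neg_ne_zero.2 ha)]
      exact hx' _ (W.smul_mem _ (W.sub_mem hw' hw))
    have hag : Ag 0 (pt W x) (pt W x') := by
      constructor
      · intro u hu
        obtain ⟨w', hw', b, rfl⟩ := mem_pt.1 hu
        refine mem_sup_un.2 ⟨Fin.cons (-(a⁻¹ * b)) ((w' - (a⁻¹ * b) • w) + (-(a⁻¹ * b)) • x'),
          mem_pt.2 ⟨_, W.sub_mem hw' (W.smul_mem _ hw), _, rfl⟩, fun l => ?_⟩
        refine Fin.cases (fun h => absurd rfl h) (fun l _ => ?_) l
        simp only [Fin.cons_succ, Pi.add_apply, Pi.smul_apply, Pi.sub_apply, smul_eq_mul, hx'def,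
          Pi.neg_apply]
        field_simp
        ring
      · intro u hu
        obtain ⟨w', hw', b, rfl⟩ := mem_pt.1 hu
        refine mem_sup_un.2 ⟨Fin.cons (-(b * a)) ((w' - b • w) + (-(b * a)) • x),
          mem_pt.2 ⟨_, W.sub_mem hw' (W.smul_mem _ hw), _, rfl⟩, fun l => ?_⟩
        refine Fin.cases (fun h => absurd rfl h) (fun l _ => ?_) l
        simp only [Fin.cons_succ, Pi.add_apply, Pi.smul_apply, Pi.sub_apply, smul_eq_mul, hx'def,
          Pi.neg_apply]
        ring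
    have h1 := hΦ.one 0 _ _ hx hSC' hag
    set z : Fin N → F := y + a • x + w with hz
    have hyz : y = x' + z := by
      rw [hz, hx'def]
      abel
    rw [h1, hyz]
    refine class_close hΦ hW hNI1 hNI hSC' (hyz ▸ hy) ?_
    omega

/-! ### The induction with a restricted local statement -/

/-- Every invariant predicate is constant. -/
theorem inv_const' {d k M : ℕ} (hd : 2 ≤ d)
    (hloc : ∀ m N : ℕ, m < M → N + 1 = k + m → Loc F d m N) :
    ∀ m N : ℕ, m ≤ M → N + 1 = k + m → (∀ j : ℕ, j < m → NI F d j (k + j)) →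
      ∀ Φ : Submodule F (Fin N → F) → Prop, Inv d m Φ →
        ∀ V V' : Submodule F (Fin N → F), SC d m V → SC d m V' → (Φ V ↔ Φ V') := by
  intro m
  induction m with
  | zero =>
    intro N _ _ _ Φ _ V V' hV hV'
    have h1 : V = ⊥ := Submodule.finrank_eq_zero.1 hV.1
    have h2 : V' = ⊥ := Submodule.finrank_eq_zero.1 hV'.1
    rw [h1, h2]
  | succ m ih =>
    intro N hM hN hNI Φ hΦ V V' hV hV'
    rcases N with _ | N
    · have h1 := finrank_le_n V
      rw [hV.1] at h1
      omega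
    have hN' : N + 1 = k + m := by omega
    have hNI' : NI F d m (N + 1) := by
      rw [hN']
      exact hNI m (by omega)
    have hlocm := hloc m N (by omega) hN'
    have hΨ := inv_step hd hNI' hlocm hΦ
    have hsub : ∀ {V : Submodule F (Fin (N + 1) → F)}, SC d (m + 1) V →
        ∃ W : Submodule F (Fin N → F), SC d m W ∧ zc W ≤ V := by
      intro V hV
      obtain ⟨E, hE, hEV, hEz⟩ := exists_sub_ker hV (LinearMap.proj 0)
      obtain ⟨W, hW, hWE⟩ := exists_zc hE hEz
      exact ⟨W, hW, hWE.le.trans hEV⟩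
    obtain ⟨W, hW, hWV⟩ := hsub hV
    obtain ⟨W', hW', hWV'⟩ := hsub hV'
    have h1 := ih N (by omega) hN' (fun j hj => hNI j (by omega)) _ hΨ W W' hW hW'
    have e : ∀ {W : Submodule F (Fin N → F)} (_ : SC d m W) {V : Submodule F (Fin (N + 1) → F)}
        (_ : SC d (m + 1) V) (_ : zc W ≤ V),
        (∃ V : Submodule F (Fin (N + 1) → F), SC d (m + 1) V ∧ zc W ≤ V ∧ Φ V) ↔ Φ V := by
      intro W hW V hV hWV
      constructor
      · rintro ⟨V', hV', hWV', h⟩
        exact (hlocm Φ hΦ W hW V' V hV' hV hWV' hWV).1 h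
      · intro h
        exact ⟨V, hV, hWV, h⟩
    exact (e hW hV hWV).symm.trans (h1.trans (e hW' hV' hWV'))

/-- Every class is everything. -/
theorem edge_const' {d k m N : ℕ} (hd : 2 ≤ d) (hkd : d ≤ k) (hN : N + 1 = k + m)
    (hloc : ∀ m' N' : ℕ, m' < m → N' + 1 = k + m' → Loc F d m' N')
    (hNI : ∀ j : ℕ, 1 ≤ j → j ≤ m → NI F d j (k + j))
    {c : Submodule F (Fin (N + 1) → F) → Prop} (hc : EdgeInv d m c)
    {C C' : Submodule F (Fin (N + 1) → F)} (hC : SC d m C) (hC' : SC d m C') : c C ↔ c C' := by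
  have hNI0 : ∀ j : ℕ, j ≤ m → NI F d j (k + j) := by
    intro j hj
    rcases Nat.eq_zero_or_pos j with rfl | hj0
    · exact ni_zero (by omega) hkd
    · exact hNI j hj0 hj
  have hNIm : NI F d m (N + 1) := by
    rw [hN]
    exact hNI0 m le_rfl
  have hΦ := inv_of_edge hd hNIm hc
  have hred : ∀ {C : Submodule F (Fin (N + 1) → F)}, SC d m C →
      ∃ V : Submodule F (Fin N → F), SC d m V ∧ (c C ↔ c (zc V)) := by
    intro C hC
    obtain ⟨D, hD, hCD⟩ := hNIm C hC
    obtain ⟨E, hE, hED, hEz⟩ := exists_sub_ker hD (LinearMap.proj 0)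
    obtain ⟨V, hV, rfl⟩ := exists_zc hE hEz
    exact ⟨V, hV, hc _ _ D hC hE hD hCD hED⟩
  obtain ⟨V, hV, e⟩ := hred hC
  obtain ⟨V', hV', e'⟩ := hred hC'
  have h1 := inv_const' hd hloc m N le_rfl hN (fun j hj => hNI0 j hj.le) _ hΦ V V' hV hV'
  exact e.trans (h1.trans e'.symm)

/-- The dual form with one more level of extendability. -/
def DQ1 (F : Type*) [Field F] (d k : ℕ) : Prop :=
  ∀ m n : ℕ, n = k + m → (∀ j : ℕ, 1 ≤ j → j ≤ m + 1 → NI F d j (k + j)) →
    ∀ c : Submodule F (Fin n → F) → Prop, EdgeInv d m c →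
      ∀ C C' : Submodule F (Fin n → F), SC d m C → SC d m C' → (c C ↔ c C')

theorem dq1_of_le {d k : ℕ} (hd4 : 4 ≤ d) (hd7 : d ≤ 7) (hkd : d ≤ k) : DQ1 F d k := by
  intro m n hn hNI c hc C C' hC hC'
  obtain ⟨N, rfl⟩ : ∃ N, n = N + 1 := ⟨n - 1, by omega⟩
  refine edge_const' (by omega) hkd hn ?_ (fun j h1 hj => hNI j h1 (by omega)) hc hC hC'
  intro m' N' hm' hN'
  apply loc_seven hd4 hd7
  · have h1 : N' + 1 + 1 = k + (m' + 1) := by omega
    rw [h1]
    exact hNI (m' + 1) (by omega) (by omega)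
  · have h1 : N' + 1 + 1 + 1 = k + (m' + 2) := by omega
    rw [h1]
    exact hNI (m' + 2) (by omega) (by omega)

/-- The dual form with one more level gives connectedness. -/
theorem preconnected_of_dq1 {t k n : ℕ} (hk : 1 ≤ k) (hkn : k < n) (hq : DQ1 F (t + 1) k)
    (h : ∀ n' : ℕ, k < n' → n' ≤ n + 1 → ∀ C : Submodule F (Fin n' → F), ¬ Isolated t k C) :
    (Lam F t n k).Preconnected := by
  intro X Y
  have hSC : ∀ Z : {C : Submodule F (Fin n → F) // IsCode t k C}, SC (t + 1) (n - k) (perp Z.1) := by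
    intro Z
    refine ⟨?_, (isCode_iff.1 Z.2).2⟩
    rw [finrank_perp, Z.2.1]
  have h1 := hq (n - k) n (by omega)
    (fun j hj hjm => ni_of_no_isolated (h (k + j) (by omega) (by omega)))
    (fun C => Conn (t + 1) (n - k) (perp X.1) C) (by
      intro C C' D hC hC' hD hCD hC'D
      constructor
      · intro hh
        exact Relation.ReflTransGen.tail hh ⟨hC.1, hC'.1, D, hD.2, hD.1, hCD, hC'D⟩
      · intro hh
        exact Relation.ReflTransGen.tail hh ⟨hC'.1, hC.1, D, hD.2, hD.1, hC'D, hCD⟩)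
    (perp X.1) (perp Y.1) (hSC X) (hSC Y)
  exact reachable_of_conn hk X _ (h1.1 Relation.ReflTransGen.refl) Y rfl

/-- The two thresholds differ by at most one. -/
theorem nuPlus_le_of_dq1 {t k : ℕ} (htk : t < k) (hq : DQ1 F (t + 1) k) :
    nuPlus F t k ≤ nu F t k + 1 := by
  by_contra hlt
  rw [not_le] at hlt
  have hne : nu F t k ≠ ⊤ := by
    intro h
    rw [h] at hlt
    exact absurd hlt (by simp)
  obtain ⟨a, ha⟩ := ENat.ne_top_iff_exists.1 hne
  -- the set of the disconnected lengths has an element at most `a`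
  have hex : ∃ n : ℕ, k < n ∧ ¬ (Lam F t n k).Preconnected ∧ n ≤ a := by
    by_contra hno
    push Not at hno
    have h1 : ((a + 1 : ℕ) : ℕ∞) ≤ nu F t k := by
      unfold nu
      apply le_sInf
      rintro x ⟨n', hn', hp, rfl⟩
      have h3 := hno n' hn' hp
      exact_mod_cast h3
    rw [← ha] at h1
    have h6 : a + 1 ≤ a := by exact_mod_cast h1
    omega
  obtain ⟨n, hn, hpre, hna⟩ := hex
  apply hpre
  refine preconnected_of_dq1 (by omega) hn hq ?_
  intro n' hn' hn'n C hC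
  have h1 : nuPlus F t k ≤ (n' : ℕ∞) := sInf_le ⟨n', hn', ⟨C, hC⟩, rfl⟩
  have h2 : (n' : ℕ∞) ≤ nu F t k + 1 := by
    rw [← ha]
    have : n' ≤ a + 1 := by omega
    exact_mod_cast this
  exact absurd hlt (not_lt.2 (h1.trans h2))

theorem main_off {t k : ℕ} (ht3 : 3 ≤ t) (ht6 : t ≤ 6) (htk : t < k) :
    nuPlus F t k ≤ nu F t k + 1 :=
  nuPlus_le_of_dq1 htk (dq1_of_le (by omega) (by omega) (by omega))

end Pool.Agent.Helper20.CG
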