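import Pool.Agent.Helper20.CG.Off2

/-!
# The thresholds differ by at most one: the binary field and `t = 7`
-/

namespace Pool.Agent.Helper20.CG

open Module Pool.Agent.Helper38.CCG

variable {F : Type*} [Field F]

/-- Over the binary field the weaker form for an odd `t` follows from the one for `t - 1`. -/
theorem dq1_odd (h2 : ∀ a : F, a = 0 ∨ a = 1) {d k : ℕ} (hd : 1 ≤ d) (hev : Even (d + 1))
    (hq : DQ1 F d k) : DQ1 F (d + 1) (k + 1) := by
  intro m n hn hNI c hc C C' hC hC'
  obtain ⟨N, rfl⟩ : ∃ N, n = N + 1 := ⟨n - 1, by omega⟩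
  rcases Nat.eq_zero_or_pos m with rfl | hm
  · have h1 : C = ⊥ := Submodule.finrank_eq_zero.1 hC.1
    have h3 : C' = ⊥ := Submodule.finrank_eq_zero.1 hC'.1
    rw [h1, h3]
  have hNIm : NI F (d + 1) m (N + 1) := by
    rw [hn]
    exact hNI m hm (by omega)
  have hNI' : ∀ j : ℕ, 1 ≤ j → j ≤ m + 1 → NI F d j (k + j) := by
    intro j hj hjm D hD
    have h1 := hNI j hj hjm
    rw [show k + 1 + j = k + j + 1 by omega] at h1
    obtain ⟨A, hA, hle⟩ := h1 _ (sc_hat h2 hev hD)
    refine ⟨A.map (tl F (k + j)), sc_tl hd hA, ?_⟩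
    intro v hv
    exact ⟨hat F (k + j) v, hle ⟨v, hv, rfl⟩, rfl⟩
  have hc' : EdgeInv d m (fun D : Submodule F (Fin N → F) => c (D.map (hat F N))) := by
    intro D D' A hD hD' hA hDA hD'A
    exact hc _ _ (A.map (hat F N)) (sc_hat h2 hev hD) (sc_hat h2 hev hD') (sc_hat h2 hev hA)
      (Submodule.map_mono hDA) (Submodule.map_mono hD'A)
  have hred : ∀ {C : Submodule F (Fin (N + 1) → F)}, SC (d + 1) m C →
      ∃ D : Submodule F (Fin N → F), SC d m D ∧ (c C ↔ c (D.map (hat F N))) := by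
    intro C hC
    obtain ⟨A, hA, hCA⟩ := hNIm C hC
    obtain ⟨E, hE, hEA, hEs⟩ := exists_sub_ker hA (sg F (N + 1))
    refine ⟨E.map (tl F N), sc_tl hd hE, ?_⟩
    have heq : (E.map (tl F N)).map (hat F N) = E := by
      have key : ∀ v ∈ E, hat F N (tl F N v) = v := by
        intro v hv
        have h1 := hEs v hv
        rw [sg_apply, Fin.sum_univ_succ] at h1
        rw [hat_apply, tl_apply]
        have h3 : sg F N (Fin.tail v) = v 0 := by
          rw [sg_apply]
          have h4 : (∑ i, Fin.tail v i) = ∑ i : Fin N, v i.succ := rfl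
          rw [h4, ← neg_self h2 (v 0)]
          linear_combination h1
        rw [h3, Fin.cons_self_tail]
      ext x
      constructor
      · rintro ⟨_, ⟨v, hv, rfl⟩, rfl⟩
        have := key v hv
        rw [this]
        exact hv
      · intro hx
        exact ⟨_, ⟨x, hx, rfl⟩, key x hx⟩
    rw [heq]
    exact hc C E A hC hE hA hCA hEA
  obtain ⟨D, hD, e⟩ := hred hC
  obtain ⟨D', hD', e'⟩ := hred hC'
  have h1 := hq m N (by omega) hNI' _ hc' D D' hD hD'
  exact e.trans (h1.trans e'.symm)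

theorem main_off_seven (h2 : ∀ a : F, a = 0 ∨ a = 1) {k : ℕ} (hk : 7 < k) :
    nuPlus F 7 k ≤ nu F 7 k + 1 := by
  obtain ⟨K, rfl⟩ : ∃ K, k = K + 1 := ⟨k - 1, by omega⟩
  exact nuPlus_le_of_dq1 (by omega)
    (dq1_odd h2 (by omega) (by decide) (dq1_of_le (by omega) (by omega) (by omega)))

end Pool.Agent.Helper20.CG
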