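import Pool.Agent.Helper20.CG.Loc

/-!
# The binary field: parity
-/

namespace Pool.Agent.Helper20.CG

open Module Pool.Agent.Helper38.CCG

variable {F : Type*} [Field F]

/-- The sum of the coordinates. -/
def sg (F : Type*) [Field F] (n : ℕ) : (Fin n → F) →ₗ[F] F where
  toFun v := ∑ i, v i
  map_add' v w := by simp [Finset.sum_add_distrib]
  map_smul' a v := by simp [Finset.mul_sum]

theorem sg_apply {n : ℕ} (v : Fin n → F) : sg F n v = ∑ i, v i := rfl

theorem two_zero (h2 : ∀ a : F, a = 0 ∨ a = 1) : (1 : F) + 1 = 0 := by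
  rcases h2 (1 + 1) with h | h
  · exact h
  · exfalso
    have : (1 : F) = 0 := by linear_combination h
    exact one_ne_zero this

theorem add_self (h2 : ∀ a : F, a = 0 ∨ a = 1) (a : F) : a + a = 0 := by
  linear_combination a * two_zero h2

theorem neg_self (h2 : ∀ a : F, a = 0 ∨ a = 1) (a : F) : -a = a := by
  linear_combination (-a) * two_zero h2

theorem sg_eq (h2 : ∀ a : F, a = 0 ∨ a = 1) {n : ℕ} (v : Fin n → F) :
    sg F n v = if Even (wt v) then 0 else 1 := by
  classical
  have h1 : sg F n v = ((wt v : ℕ) : F) := by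
    rw [sg_apply]
    unfold wt
    rw [Set.ncard_eq_toFinset_card']
    have : ∀ i, v i = if i ∈ (Function.support v).toFinset then (1 : F) else 0 := by
      intro i
      rcases h2 (v i) with h | h
      · simp [h]
      · simp [h]
    rw [Finset.sum_congr rfl (fun i _ => this i), Finset.sum_ite_mem, Finset.univ_inter,
      Finset.sum_const, nsmul_eq_mul, mul_one]
  rw [h1]
  rcases Nat.even_or_odd (wt v) with h | h
  · rw [if_pos h]
    obtain ⟨k, hk⟩ := h
    rw [hk, Nat.cast_add]
    exact add_self h2 _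
  · rw [if_neg (Nat.not_even_iff_odd.2 h)]
    obtain ⟨k, hk⟩ := h
    rw [hk, Nat.cast_add, Nat.cast_mul, Nat.cast_one]
    have : ((2 : ℕ) : F) = 0 := by
      rw [← one_add_one_eq_two, Nat.cast_add, Nat.cast_one]
      exact two_zero h2
    rw [this, zero_mul, zero_add]

/-- Replacing the coordinate `i` by the sum of all coordinates. -/
def tp (F : Type*) [Field F] {n : ℕ} (i : Fin n) : (Fin n → F) →ₗ[F] (Fin n → F) where
  toFun v := v + Pi.single i (sg F n v - v i)
  map_add' v w := by
    ext l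
    by_cases hl : l = i
    · subst hl
      simp
    · simp [hl]
  map_smul' a v := by
    ext l
    by_cases hl : l = i
    · subst hl
      simp
    · simp [hl]

theorem tp_self {n : ℕ} (i : Fin n) (v : Fin n → F) : tp F i v i = sg F n v := by
  show (v + Pi.single i (sg F n v - v i) : Fin n → F) i = _
  simp

theorem tp_ne {n : ℕ} {i l : Fin n} (h : l ≠ i) (v : Fin n → F) : tp F i v l = v l := by
  show (v + Pi.single i (sg F n v - v i) : Fin n → F) l = _
  simp [h]

theorem sc_tp (h2 : ∀ a : F, a = 0 ∨ a = 1) {n d m : ℕ} (hd : Odd d) {i : Fin n}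
    {V : Submodule F (Fin n → F)} (hV : SC d m V) : SC d m (V.map (tp F i)) := by
  have hwt : ∀ v ∈ V, v ≠ 0 → d ≤ wt (tp F i v) := by
    intro v hv hv0
    by_contra hlt
    have h1 := hV.2 v hv hv0
    have h3 : wt v ≤ wt (tp F i v) + 1 :=
      wt_le_succ_of_agree (i := i) (fun l hl => (tp_ne hl v).symm)
    have h4 : wt v = d := by omega
    have h5 : sg F n v = 1 := by
      rw [sg_eq h2, if_neg]
      rw [h4]
      exact Nat.not_even_iff_odd.2 hd
    have h6 : wt v ≤ wt (tp F i v) := by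
      refine wt_le_of_agree (i := i) (fun l hl => (tp_ne hl v).symm) (Or.inl ?_)
      rw [tp_self, h5]
      exact one_ne_zero
    omega
  have hd0 : 0 < d := hd.pos
  refine ⟨?_, ?_⟩
  · have hinj : Function.Injective ((tp F i).domRestrict V) := by
      rw [← LinearMap.ker_eq_bot, LinearMap.ker_eq_bot']
      rintro ⟨v, hv⟩ h0
      by_contra hne
      have hv0 : v ≠ 0 := fun h => hne (Subtype.ext h)
      have h1 := hwt v hv hv0
      have h3 : tp F i v = 0 := h0
      rw [h3, wt_zero] at h1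
      omega
    have h1 := LinearMap.finrank_range_of_inj hinj
    rw [LinearMap.range_domRestrict] at h1
    rw [h1, hV.1]
  · rintro _ ⟨v, hv, rfl⟩ hne
    exact hwt v hv (by
      rintro rfl
      exact hne (map_zero _))

theorem ag_tp {n : ℕ} {i : Fin n} {V : Submodule F (Fin n → F)} : Ag i V (V.map (tp F i)) := by
  constructor
  · intro v hv
    exact mem_sup_un.2 ⟨_, ⟨v, hv, rfl⟩, fun l hl => (tp_ne hl v).symm⟩
  · rintro _ ⟨v, hv, rfl⟩
    exact mem_sup_un.2 ⟨v, hv, fun l hl => tp_ne hl v⟩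

theorem wt_two {n : ℕ} {z : Fin n → F} (hz : wt z = 2) :
    ∃ i j : Fin n, i ≠ j ∧ z i ≠ 0 ∧ z j ≠ 0 ∧ ∀ l, l ≠ i → l ≠ j → z l = 0 := by
  unfold wt at hz
  obtain ⟨i, j, hij, hs⟩ := Set.ncard_eq_two.1 hz
  refine ⟨i, j, hij, ?_, ?_, ?_⟩
  · have : i ∈ Function.support z := by rw [hs]; exact Or.inl rfl
    exact this
  · have : j ∈ Function.support z := by rw [hs]; exact Or.inr rfl
    exact this
  · intro l hli hlj
    by_contra h
    have : l ∈ Function.support z := h
    rw [hs] at this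
    rcases this with h | h
    · exact hli h
    · exact hlj h

/-- Binary codes of odd distance: points which differ in two places. -/
theorem class_two (h2 : ∀ a : F, a = 0 ∨ a = 1) {N d m : ℕ} (hd : Odd d)
    {Φ : Submodule F (Fin (N + 1) → F) → Prop} (hΦ : Inv d (m + 1) Φ)
    {W : Submodule F (Fin N → F)} {x z : Fin N → F} (hx : SC d (m + 1) (pt W x))
    (hxz : SC d (m + 1) (pt W (x + z))) (hz : wt z = 2) :
    Φ (pt W x) ↔ Φ (pt W (x + z)) := by
  classical
  obtain ⟨i, j, hij, hzi, hzj, hzl⟩ := wt_two hz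
  have hsz : sg F N z = 0 := by
    rw [sg_eq h2, hz, if_pos (by decide)]
  have h1 := hΦ.one i.succ _ _ hx (sc_tp h2 hd hx) (ag_tp (i := i.succ))
  have h3 := hΦ.one i.succ _ _ hxz (sc_tp h2 hd hxz) (ag_tp (i := i.succ))
  rw [h1, h3]
  have hsum : ∀ (a : F) (u : Fin N → F),
      sg F (N + 1) (Fin.cons a (u + a • z)) = sg F (N + 1) (Fin.cons a u) := by
    intro a u
    have : (Fin.cons a (u + a • z) : Fin (N + 1) → F)
        = Fin.cons a u + a • Fin.cons 0 z := by
      ext l
      refine Fin.cases ?_ (fun l => ?_) l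
      · simp
      · simp
    rw [this, map_add, map_smul]
    have h4 : sg F (N + 1) (Fin.cons 0 z : Fin (N + 1) → F) = 0 := by
      rw [sg_apply, Fin.sum_univ_succ]
      simpa [sg_apply] using hsz
    rw [h4]
    simp
  have hagree : ∀ (a : F) (u : Fin N → F) (l : Fin (N + 1)), l ≠ j.succ →
      tp F i.succ (Fin.cons a u : Fin (N + 1) → F) l
        = tp F i.succ (Fin.cons a (u + a • z) : Fin (N + 1) → F) l := by
    intro a u l hl
    by_cases hli : l = i.succ
    · rw [hli, tp_self, tp_self, hsum]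
    · rw [tp_ne hli, tp_ne hli]
      revert hl hli
      refine Fin.cases (fun _ _ => rfl) (fun l hl hli => ?_) l
      have : z l = 0 := hzl l (fun h => hli (by rw [h])) (fun h => hl (by rw [h]))
      simp [this]
  have he : ∀ (a : F) (w : Fin N → F), w + a • (x + z) = w + a • x + a • z := fun a w => by
    rw [smul_add, add_assoc]
  refine hΦ.one j.succ _ _ (sc_tp h2 hd hx) (sc_tp h2 hd hxz) ⟨?_, ?_⟩
  · rintro _ ⟨u, hu, rfl⟩
    obtain ⟨w, hw, a, rfl⟩ := mem_pt.1 hu
    refine mem_sup_un.2 ⟨_, ⟨_, mem_pt.2 ⟨w, hw, a, rfl⟩, rfl⟩, fun l hl => ?_⟩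
    have := hagree a (w + a • x) l hl
    rw [← he] at this
    exact this
  · rintro _ ⟨u, hu, rfl⟩
    obtain ⟨w, hw, a, rfl⟩ := mem_pt.1 hu
    refine mem_sup_un.2 ⟨_, ⟨_, mem_pt.2 ⟨w, hw, a, rfl⟩, rfl⟩, fun l hl => ?_⟩
    have := hagree a (w + a • x) l hl
    rw [← he] at this
    exact this.symm

/-- The local statement for `t = 4` over the binary field. -/
theorem loc_five (h2 : ∀ a : F, a = 0 ∨ a = 1) {N m : ℕ} : Loc F 5 m N := by
  apply loc_of_close (by omega)
  intro Φ hΦ W _ x z hx hxz hz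
  rcases Nat.lt_or_ge (wt z) 2 with h | h
  · rcases wt_le_one (by omega : wt z ≤ 1) with rfl | ⟨j, hj⟩
    · rw [add_zero]
    · exact hΦ.one j.succ _ _ hx hxz (ag_pt hj)
  · exact class_two h2 (by decide) hΦ hx hxz (by omega)

end Pool.Agent.Helper20.CG
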