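import Pool.Agent.Helper20.CG.Top

/-!
# The induction on the dimension of the dual codes
-/

namespace Pool.Agent.Helper20.CG

open Module Pool.Agent.Helper38.CCG

variable {F : Type*} [Field F]

/-- The code with a zero coordinate added. -/
def zc {N : ℕ} (C : Submodule F (Fin N → F)) : Submodule F (Fin (N + 1) → F) := C.map (cz N)

theorem mem_zc {N : ℕ} {C : Submodule F (Fin N → F)} {x : Fin (N + 1) → F} :
    x ∈ zc C ↔ ∃ v ∈ C, x = Fin.cons 0 v := by
  unfold zc
  constructor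
  · rintro ⟨v, hv, rfl⟩
    exact ⟨v, hv, rfl⟩
  · rintro ⟨v, hv, rfl⟩
    exact ⟨v, hv, rfl⟩

theorem SC.zc {N d m : ℕ} {C : Submodule F (Fin N → F)} (h : SC d m C) : SC d m (zc C) :=
  ⟨(finrank_map_cz C).trans h.1, h.2.map_cz⟩

theorem zc_zero {N : ℕ} {C : Submodule F (Fin N → F)} : ∀ v ∈ zc C, v 0 = 0 := by
  intro v hv
  obtain ⟨x, -, rfl⟩ := mem_zc.1 hv
  rfl

theorem zc_mono {N : ℕ} {C D : Submodule F (Fin N → F)} (h : C ≤ D) : zc C ≤ zc D :=
  Submodule.map_mono h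

theorem Ag.zc {N : ℕ} {j : Fin N} {C C' : Submodule F (Fin N → F)} (h : Ag j C C') :
    Ag j.succ (zc C) (zc C') := by
  have key : ∀ {C C' : Submodule F (Fin N → F)}, C ≤ C' ⊔ un F j →
      CG.zc C ≤ CG.zc C' ⊔ un F j.succ := by
    intro C C' h x hx
    obtain ⟨v, hv, rfl⟩ := mem_zc.1 hx
    obtain ⟨v', hv', hvv⟩ := mem_sup_un.1 (h hv)
    refine mem_sup_un.2 ⟨Fin.cons 0 v', mem_zc.2 ⟨v', hv', rfl⟩, fun l => ?_⟩
    refine Fin.cases (fun _ => rfl) (fun l hl => ?_) l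
    simpa using hvv l (fun h => hl (by rw [h]))
  exact ⟨key h.1, key h.2⟩

/-- A code which vanishes at the first coordinate comes from a shorter one. -/
theorem exists_zc {N d m : ℕ} {C : Submodule F (Fin (N + 1) → F)} (hC : SC d m C)
    (hz : ∀ v ∈ C, v 0 = 0) : ∃ W : Submodule F (Fin N → F), SC d m W ∧ zc W = C := by
  refine ⟨C.comap (cz N), ?_⟩
  have heq : zc (C.comap (cz N)) = C := by
    ext x
    rw [mem_zc]
    constructor
    · rintro ⟨v, hv, rfl⟩
      exact hv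
    · intro hx
      have : x = Fin.cons 0 (Fin.tail x) := by
        rw [← hz x hx, Fin.cons_self_tail]
      refine ⟨Fin.tail x, ?_, this⟩
      show (Fin.cons 0 (Fin.tail x) : Fin (N + 1) → F) ∈ C
      rw [← this]
      exact hx
  refine ⟨⟨?_, ?_⟩, heq⟩
  · have h1 : finrank F (zc (C.comap (cz N)) : Submodule F (Fin (N + 1) → F))
        = finrank F (C.comap (cz N)) := finrank_map_cz _
    rw [← h1, heq]
    exact hC.1
  · intro u hu hu0
    have h1 : (Fin.cons 0 u : Fin (N + 1) → F) ∈ C := hu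
    have h2 := hC.2 _ h1 (by
      intro h0
      apply hu0
      ext i
      have := congrFun h0 i.succ
      simpa using this)
    rwa [wt_cons_zero] at h2

/-- The permutation which fixes the first coordinate. -/
theorem exists_ext {N : ℕ} (p : Equiv.Perm (Fin N)) :
    ∃ p' : Equiv.Perm (Fin (N + 1)), ∀ C : Submodule F (Fin N → F), zc (mp p C) = mp p' (zc C) := by
  have key : ∀ q : Equiv.Perm (Fin N), ∀ v : Fin N → F,
      pm F (Equiv.Perm.decomposeFin.symm (0, q)) (Fin.cons 0 v) = Fin.cons 0 (pm F q v) := by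
    intro q v
    ext i
    refine Fin.cases ?_ (fun i => ?_) i
    · simp
    · simp
  refine ⟨Equiv.Perm.decomposeFin.symm (0, p), fun C => ?_⟩
  ext x
  rw [mem_zc]
  constructor
  · rintro ⟨v, hv, rfl⟩
    obtain ⟨u, hu, rfl⟩ := hv
    refine ⟨Fin.cons 0 u, mem_zc.2 ⟨u, hu, rfl⟩, ?_⟩
    exact key p u
  · rintro ⟨y, hy, rfl⟩
    obtain ⟨v, hv, rfl⟩ := mem_zc.1 hy
    exact ⟨pm F p v, ⟨v, hv, rfl⟩, key p v⟩

/-- Invariant predicates on the codes of dimension `m` and length `N`. -/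
structure Inv {N : ℕ} (d m : ℕ) (Φ : Submodule F (Fin N → F) → Prop) : Prop where
  perm : ∀ (p : Equiv.Perm (Fin N)) (V : Submodule F (Fin N → F)), SC d m V → (Φ V ↔ Φ (mp p V))
  one : ∀ (j : Fin N) (V V' : Submodule F (Fin N → F)), SC d m V → SC d m V' → Ag j V V' →
    (Φ V ↔ Φ V')
  two : ∀ (A : Submodule F (Fin (N + 1) → F)) (p : Equiv.Perm (Fin (N + 1)))
    (V V' : Submodule F (Fin N → F)), SC d (m + 1) A → SC d m V → SC d m V' →
    zc V ≤ A → zc V' ≤ mp p A → (Φ V ↔ Φ V')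

/-- The classes of the graph give an invariant predicate. -/
theorem inv_of_edge {N d m : ℕ} (hd : 2 ≤ d) (hNI : NI F d m (N + 1))
    {c : Submodule F (Fin (N + 1) → F) → Prop} (hc : EdgeInv d m c) :
    Inv d m (fun V : Submodule F (Fin N → F) => c (zc V)) where
  perm p V hV := by
    obtain ⟨p', hp'⟩ := exists_ext (F := F) p
    show c (zc V) ↔ c (zc (mp p V))
    rw [hp' V]
    exact class_perm hd hNI hc p' hV.zc
  one j V V' hV hV' hag :=
    class_one hd hNI hc (i := 0) (j := j.succ) (Fin.succ_ne_zero j).symm hV.zc hV'.zc zc_zero zc_zero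
      hag.zc
  two A p V V' hA hV hV' h h' := by
    show c (zc V) ↔ c (zc V')
    rw [class_perm hd hNI hc p hV.zc]
    exact hc _ _ (mp p A) (hV.zc.mp p) hV'.zc (hA.mp p) (mp_mono h) h'

/-- All lifts of a code with a zero coordinate have the same class. -/
def Loc (F : Type*) [Field F] (d m N : ℕ) : Prop :=
  ∀ Φ : Submodule F (Fin (N + 1) → F) → Prop, Inv d (m + 1) Φ →
    ∀ W : Submodule F (Fin N → F), SC d m W → ∀ V V' : Submodule F (Fin (N + 1) → F),
      SC d (m + 1) V → SC d (m + 1) V' → zc W ≤ V → zc W ≤ V' → (Φ V ↔ Φ V')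

/-- The predicate on the shorter codes. -/
theorem inv_step {N d m : ℕ} (hd : 2 ≤ d) (hNI : NI F d m (N + 1)) (hloc : Loc F d m N)
    {Φ : Submodule F (Fin (N + 1) → F) → Prop} (hΦ : Inv d (m + 1) Φ) :
    Inv d m (fun W : Submodule F (Fin N → F) =>
      ∃ V : Submodule F (Fin (N + 1) → F), SC d (m + 1) V ∧ zc W ≤ V ∧ Φ V) := by
  have key : ∀ {W : Submodule F (Fin N → F)} (_ : SC d m W) {V : Submodule F (Fin (N + 1) → F)}
      (_ : SC d (m + 1) V) (_ : zc W ≤ V),
      (∃ V : Submodule F (Fin (N + 1) → F), SC d (m + 1) V ∧ zc W ≤ V ∧ Φ V) ↔ Φ V := by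
    intro W hW V hV hWV
    constructor
    · rintro ⟨V', hV', hWV', h⟩
      exact (hloc Φ hΦ W hW V' V hV' hV hWV' hWV).1 h
    · intro h
      exact ⟨V, hV, hWV, h⟩
  constructor
  · intro p W hW
    obtain ⟨V, hV, hWV⟩ := hNI _ hW.zc
    obtain ⟨p', hp'⟩ := exists_ext (F := F) p
    have h2 : zc (mp p W) ≤ mp p' V := by
      rw [hp' W]
      exact mp_mono hWV
    exact (key hW hV hWV).trans ((hΦ.perm p' V hV).trans (key (hW.mp p) (hV.mp p') h2).symm)
  · intro j W W' hW hW' hag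
    obtain ⟨C₁, hC₁, h1, h2⟩ := mid hd hW.zc hW'.zc (i := 0) (j := j.succ)
      (Fin.succ_ne_zero j).symm zc_zero zc_zero hag.zc
    obtain ⟨V, hV, hCV⟩ := hNI C₁ hC₁
    obtain ⟨w, -, hV1, hag1⟩ := fix hW.zc hC₁ hV hCV zc_zero h1
    have hz'' : ∀ v ∈ mp (Equiv.swap 0 j.succ) (zc W'), v j.succ = 0 := by
      intro v hv
      have h3 := zc_zero _ (mem_mp.1 hv)
      rw [pm_apply] at h3
      simpa using h3
    obtain ⟨w', -, hV2, hag2⟩ := fix (hW'.zc.mp _) hC₁ hV hCV hz'' h2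
    set V1 := zc W ⊔ Submodule.span F {w} with hV1def
    set V2 := mp (Equiv.swap 0 j.succ) (zc W') ⊔ Submodule.span F {w'} with hV2def
    have e1 := key hW hV1 le_sup_left
    have h4 : zc W' ≤ mp (Equiv.swap 0 j.succ) V2 := by
      have h5 : mp (Equiv.swap 0 j.succ) (mp (Equiv.swap 0 j.succ) (zc W')) = zc W' := by
        rw [mp_mp, Equiv.swap_mul_self, mp_one]
      rw [← h5]
      exact mp_mono le_sup_left
    have e2 := key hW' (hV2.mp _) h4
    exact e1.trans ((hΦ.one 0 V V1 hV hV1 hag1).symm.trans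
      ((hΦ.one j.succ V V2 hV hV2 hag2).trans ((hΦ.perm _ V2 hV2).trans e2.symm)))
  · intro A p W W' hA hW hW' h h'
    exact (key hW hA h).trans ((hΦ.perm p A hA).trans (key hW' (hA.mp p) h').symm)

/-- Every invariant predicate is constant. -/
theorem inv_const {d k : ℕ} (hd : 2 ≤ d) (hloc : ∀ m N : ℕ, N + 1 = k + m → Loc F d m N) :
    ∀ m N : ℕ, N + 1 = k + m → (∀ j : ℕ, j < m → NI F d j (k + j)) →
      ∀ Φ : Submodule F (Fin N → F) → Prop, Inv d m Φ →
        ∀ V V' : Submodule F (Fin N → F), SC d m V → SC d m V' → (Φ V ↔ Φ V') := by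
  intro m
  induction m with
  | zero =>
    intro N _ _ Φ _ V V' hV hV'
    have h1 : V = ⊥ := Submodule.finrank_eq_zero.1 hV.1
    have h2 : V' = ⊥ := Submodule.finrank_eq_zero.1 hV'.1
    rw [h1, h2]
  | succ m ih =>
    intro N hN hNI Φ hΦ V V' hV hV'
    rcases N with _ | N
    · -- length zero
      have h1 := finrank_le_n V
      rw [hV.1] at h1
      omega
    have hN' : N + 1 = k + m := by omega
    have hNI' : NI F d m (N + 1) := by
      rw [hN']
      exact hNI m (by omega)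
    have hΨ := inv_step hd hNI' (hloc m N hN') hΦ
    have hsub : ∀ {V : Submodule F (Fin (N + 1) → F)}, SC d (m + 1) V →
        ∃ W : Submodule F (Fin N → F), SC d m W ∧ zc W ≤ V := by
      intro V hV
      obtain ⟨E, hE, hEV, hEz⟩ := exists_sub_ker hV (LinearMap.proj 0)
      obtain ⟨W, hW, hWE⟩ := exists_zc hE hEz
      exact ⟨W, hW, hWE.le.trans hEV⟩
    obtain ⟨W, hW, hWV⟩ := hsub hV
    obtain ⟨W', hW', hWV'⟩ := hsub hV'
    have h1 := ih N hN' (fun j hj => hNI j (by omega)) _ hΨ W W' hW hW'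
    have e : ∀ {W : Submodule F (Fin N → F)} (_ : SC d m W) {V : Submodule F (Fin (N + 1) → F)}
        (_ : SC d (m + 1) V) (_ : zc W ≤ V),
        (∃ V : Submodule F (Fin (N + 1) → F), SC d (m + 1) V ∧ zc W ≤ V ∧ Φ V) ↔ Φ V := by
      intro W hW V hV hWV
      constructor
      · rintro ⟨V', hV', hWV', h⟩
        exact (hloc m N hN' Φ hΦ W hW V' V hV' hV hWV' hWV).1 h
      · intro h
        exact ⟨V, hV, hWV, h⟩
    exact (e hW hV hWV).symm.trans (h1.trans (e hW' hV' hWV'))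

theorem ni_zero {d k : ℕ} (hk : 1 ≤ k) (hkd : d ≤ k) : NI F d 0 k := by
  intro C hC
  have h1 : C = ⊥ := Submodule.finrank_eq_zero.1 hC.1
  subst h1
  have hone : (fun _ => 1 : Fin k → F) ≠ 0 := by
    intro h
    have := congrFun h ⟨0, hk⟩
    simp at this
  refine ⟨Submodule.span F {fun _ => (1 : F)}, ⟨finrank_span_singleton hone, ?_⟩, bot_le⟩
  intro u hu hu0
  obtain ⟨a, rfl⟩ := Submodule.mem_span_singleton.1 hu
  have ha : a ≠ 0 := by
    rintro rfl
    simp at hu0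
  rw [wt_smul ha]
  have : wt (fun _ => 1 : Fin k → F) = k := by
    unfold wt
    have h2 : Function.support (fun _ => 1 : Fin k → F) = Set.univ := by
      ext i
      simp
    rw [h2, Set.ncard_univ, Nat.card_fin]
  rw [this]
  exact hkd

/-- Every class is everything. -/
theorem edge_const {d k m N : ℕ} (hd : 2 ≤ d) (hkd : d ≤ k) (hN : N + 1 = k + m)
    (hloc : ∀ m N : ℕ, N + 1 = k + m → Loc F d m N)
    (hNI : ∀ j : ℕ, 1 ≤ j → j ≤ m → NI F d j (k + j))
    {c : Submodule F (Fin (N + 1) → F) → Prop} (hc : EdgeInv d m c)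
    {C C' : Submodule F (Fin (N + 1) → F)} (hC : SC d m C) (hC' : SC d m C') : c C ↔ c C' := by
  have hNI0 : ∀ j : ℕ, j ≤ m → NI F d j (k + j) := by
    intro j hj
    rcases Nat.eq_zero_or_pos j with rfl | hj0
    · exact ni_zero (by omega) hkd
    · exact hNI j hj0 hj
  have hNIm : NI F d m (N + 1) := by
    rw [hN]
    exact hNI0 m le_rfl
  have hΦ := inv_of_edge hd hNIm hc
  have hred : ∀ {C : Submodule F (Fin (N + 1) → F)}, SC d m C →
      ∃ V : Submodule F (Fin N → F), SC d m V ∧ (c C ↔ c (zc V)) := by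
    intro C hC
    obtain ⟨D, hD, hCD⟩ := hNIm C hC
    obtain ⟨E, hE, hED, hEz⟩ := exists_sub_ker hD (LinearMap.proj 0)
    obtain ⟨V, hV, rfl⟩ := exists_zc hE hEz
    exact ⟨V, hV, hc _ _ D hC hE hD hCD hED⟩
  obtain ⟨V, hV, e⟩ := hred hC
  obtain ⟨V', hV', e'⟩ := hred hC'
  have h1 := inv_const hd hloc m N hN (fun j hj => hNI0 j hj.le) _ hΦ V V' hV hV'
  exact e.trans (h1.trans e'.symm)

end Pool.Agent.Helper20.CG
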