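import Pool.Agent.Helper20.CG.Basic

/-!
# Invariance of the classes under one-coordinate changes and permutations
-/

namespace Pool.Agent.Helper20.CG

open Module Pool.Agent.Helper38.CCG

variable {F : Type*} [Field F] {n : ℕ}

/-- If `C₁ ≤ D` and `C` agrees with `C₁` outside `i` and vanishes at `i`, then `D` can be changed
at the coordinate `i` into a code above `C`. -/
theorem fix {d m : ℕ} {i : Fin n} {C C₁ D : Submodule F (Fin n → F)} (hC : SC d m C)
    (hC₁ : SC d m C₁) (hD : SC d (m + 1) D) (h₁ : C₁ ≤ D) (hz : ∀ v ∈ C, v i = 0)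
    (hag : Ag i C₁ C) :
    ∃ w : Fin n → F, w i = 1 ∧ SC d (m + 1) (C ⊔ Submodule.span F {w}) ∧
      Ag i D (C ⊔ Submodule.span F {w}) := by
  -- a vector of `D` outside `C₁`
  obtain ⟨w, hwD, hwC⟩ : ∃ w ∈ D, w ∉ C₁ := by
    by_contra h
    push Not at h
    have : finrank F D ≤ finrank F C₁ := Submodule.finrank_mono h
    rw [hD.1, hC₁.1] at this
    omega
  have hDe : D ≤ C₁ ⊔ Submodule.span F {w} := by
    have h2 : C₁ ⊔ Submodule.span F {w} ≤ D :=
      sup_le h₁ ((Submodule.span_singleton_le_iff_mem _ _).2 hwD)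
    have h3 := finrank_sup_span hwC
    exact (Submodule.eq_of_le_of_finrank_eq h2 (by rw [h3, hC₁.1, hD.1])).ge
  set w' : Fin n → F := Function.update w i 1 with hw'
  have hw'i : w' i = 1 := by simp [hw']
  have hw'j : ∀ j, j ≠ i → w' j = w j := fun j hj => by simp [hw', hj]
  have hw'C : w' ∉ C := fun h => one_ne_zero (hw'i.symm.trans (hz _ h))
  refine ⟨w', hw'i, ⟨?_, ?_⟩, ?_, ?_⟩
  · rw [finrank_sup_span hw'C, hC.1]
  · intro u hu hu0
    obtain ⟨v, hv, a, rfl⟩ := mem_sup_span.1 hu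
    by_cases ha : a = 0
    · subst ha
      rw [zero_smul, add_zero] at hu0 ⊢
      exact hC.2 _ hv hu0
    · obtain ⟨v₁, hv₁, hag₁⟩ := mem_sup_un.1 (hag.2 hv)
      have hx : v₁ + a • w ∈ D := D.add_mem (h₁ hv₁) (D.smul_mem _ hwD)
      have hx0 : v₁ + a • w ≠ 0 := by
        intro h0
        apply hwC
        have : a • w = -v₁ := by
          rw [eq_neg_iff_add_eq_zero, add_comm]
          exact h0
        have h2 : a • w ∈ C₁ := by
          rw [this]
          exact C₁.neg_mem hv₁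
        exact (C₁.smul_mem_iff ha).1 h2
      refine (hD.2 _ hx hx0).trans (wt_le_of_agree (i := i) ?_ (Or.inl ?_))
      · intro j hj
        simp only [Pi.add_apply, Pi.smul_apply]
        rw [hag₁ j hj, hw'j j hj]
      · simp only [Pi.add_apply, Pi.smul_apply]
        rw [hz v hv, hw'i]
        simpa using ha
  · intro x hx
    obtain ⟨v₁, hv₁, a, rfl⟩ := mem_sup_span.1 (hDe hx)
    obtain ⟨v, hv, hvv⟩ := mem_sup_un.1 (hag.1 hv₁)
    refine mem_sup_un.2 ⟨v + a • w', mem_sup_span.2 ⟨v, hv, a, rfl⟩, fun j hj => ?_⟩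
    simp only [Pi.add_apply, Pi.smul_apply]
    rw [hvv j hj, hw'j j hj]
  · intro x hx
    obtain ⟨v, hv, a, rfl⟩ := mem_sup_span.1 hx
    obtain ⟨v₁, hv₁, hvv⟩ := mem_sup_un.1 (hag.2 hv)
    refine mem_sup_un.2 ⟨v₁ + a • w, D.add_mem (h₁ hv₁) (D.smul_mem _ hwD), fun j hj => ?_⟩
    simp only [Pi.add_apply, Pi.smul_apply]
    rw [hvv j hj, hw'j j hj]

/-- Two codes of dimension `m + 1` which agree outside one coordinate have the same class. -/
theorem class_of_ag {d m : ℕ} (hd : 2 ≤ d) {c : Submodule F (Fin n → F) → Prop}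
    (hc : EdgeInv d m c) {i : Fin n} {D D' C C' : Submodule F (Fin n → F)}
    (hD : SC d (m + 1) D) (hD' : SC d (m + 1) D') (hag : Ag i D D') (hC : SC d m C)
    (hC' : SC d m C') (h : C ≤ D) (h' : C' ≤ D') : c C ↔ c C' := by
  have h1 := Submodule.finrank_sup_add_finrank_inf_eq D D'
  have h2 : finrank F (D ⊔ D' : Submodule F (Fin n → F)) ≤ m + 1 + 1 := by
    rw [← finrank_sup_un hd hD i]
    exact Submodule.finrank_mono (sup_le le_sup_left hag.2)
  obtain ⟨E, hE, hEle⟩ := exists_sub (m := m) (D := D ⊓ D') (d := d)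
    (by rw [hD.1, hD'.1] at h1; omega) (hD.2.mono inf_le_left)
  exact (hc C E D hC hE hD h (hEle.trans inf_le_left)).trans
    (hc E C' D' hE hC' hD' (hEle.trans inf_le_right) h')

/-- Two codes which agree outside `i`, one of them vanishing at `i`, have the same class. -/
theorem class_zero {d m : ℕ} (hd : 2 ≤ d) (hNI : NI F d m n)
    {c : Submodule F (Fin n → F) → Prop} (hc : EdgeInv d m c) {i : Fin n}
    {C C₁ : Submodule F (Fin n → F)} (hC : SC d m C) (hC₁ : SC d m C₁)
    (hz : ∀ v ∈ C, v i = 0) (hag : Ag i C₁ C) : c C ↔ c C₁ := by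
  obtain ⟨D, hD, h₁⟩ := hNI C₁ hC₁
  obtain ⟨w, -, hD', hag'⟩ := fix hC hC₁ hD h₁ hz hag
  exact (class_of_ag hd hc hD hD' hag' hC₁ hC h₁ le_sup_left).symm

/-- The code between `C` and the code obtained from `C'` by swapping `i` and `j`. -/
theorem mid {d m : ℕ} (hd : 2 ≤ d) {i j : Fin n} {C C' : Submodule F (Fin n → F)}
    (hC : SC d m C) (hC' : SC d m C') (hij : i ≠ j) (hz : ∀ v ∈ C, v i = 0)
    (hz' : ∀ v ∈ C', v i = 0) (hag : Ag j C C') :
    ∃ C₁ : Submodule F (Fin n → F), SC d m C₁ ∧ Ag i C₁ C ∧ Ag j C₁ (mp (Equiv.swap i j) C') := by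
  classical
  set C'' := mp (Equiv.swap i j) C' with hC''
  have hSC'' : SC d m C'' := hC'.mp _
  have hz'' : ∀ v ∈ C'', v j = 0 := by
    intro v hv
    have h1 := hz' _ (mem_mp.1 hv)
    rw [pm_apply] at h1
    simpa using h1
  set C₁ : Submodule F (Fin n → F) := (C ⊔ un F i) ⊓ (C'' ⊔ un F j) with hC₁
  have hdc : DCode d C₁ := by
    intro x hx hx0
    obtain ⟨v, hv, hvx⟩ := mem_sup_un.1 hx.1
    obtain ⟨v'', hv'', hvx''⟩ := mem_sup_un.1 hx.2
    have hv0 : v ≠ 0 := by
      rintro rfl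
      -- then `x` is a multiple of `e_i`, and so is `v''`
      have hv''1 : wt v'' ≤ 1 := by
        have h3 : ∀ l, l ≠ i → v'' l = 0 := by
          intro l hl
          by_cases hlj : l = j
          · rw [hlj]; exact hz'' _ hv''
          · rw [← hvx'' l hlj, hvx l hl]; rfl
        have := wt_le_succ_of_agree (F := F) (i := i) (x := v'') (y := 0) (fun l hl => h3 l hl)
        rwa [wt_zero] at this
      have hv''0 : v'' = 0 := by
        by_contra h
        have := hSC''.2 _ hv'' h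
        omega
      apply hx0
      ext l
      by_cases hl : l = i
      · subst hl
        rw [hvx'' l hij, hv''0]
      · rw [hvx l hl]
    refine (hC.2 _ hv hv0).trans (wt_le_of_agree (i := i) (fun l hl => (hvx l hl).symm)
      (Or.inr (hz _ hv)))
  have hCle : C ≤ C₁ ⊔ un F i := by
    intro v hv
    obtain ⟨v', hv', hvv'⟩ := mem_sup_un.1 (hag.1 hv)
    -- `x` has the `j`-th coordinate of `v'` at the place `i`
    refine mem_sup_un.2 ⟨Function.update v i (v' j), ⟨?_, ?_⟩, fun l hl => by simp [hl]⟩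
    · exact mem_sup_un.2 ⟨v, hv, fun l hl => by simp [hl]⟩
    · refine mem_sup_un.2 ⟨pm F (Equiv.swap i j) v', ?_, fun l hl => ?_⟩
      · rw [hC'', mem_mp]
        have : pm F (Equiv.swap i j).symm (pm F (Equiv.swap i j) v') = v' := by
          ext l
          simp
        rw [this]
        exact hv'
      · rw [pm_apply]
        by_cases hli : l = i
        · subst hli
          simp
        · rw [Equiv.swap_apply_of_ne_of_ne hli hl, Function.update_of_ne hli, hvv' l hl]
  have hCle' : C'' ≤ C₁ ⊔ un F j := by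
    intro v'' hv''
    have hv' : pm F (Equiv.swap i j).symm v'' ∈ C' := mem_mp.1 hv''
    obtain ⟨v, hv, hvv⟩ := mem_sup_un.1 (hag.2 hv')
    refine mem_sup_un.2 ⟨Function.update v'' j (v j), ⟨?_, ?_⟩, fun l hl => by simp [hl]⟩
    · refine mem_sup_un.2 ⟨v, hv, fun l hl => ?_⟩
      by_cases hlj : l = j
      · subst hlj
        simp
      · rw [Function.update_of_ne hlj, ← hvv l hlj, pm_apply, Equiv.symm_swap,
          Equiv.swap_apply_of_ne_of_ne hl hlj]
    · exact mem_sup_un.2 ⟨v'', hv'', fun l hl => by simp [hl]⟩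
  have hfr : finrank F C₁ = m := by
    have h1 : C₁ ⊔ un F i = C ⊔ un F i :=
      le_antisymm (sup_le inf_le_left le_sup_right) (sup_le hCle le_sup_right)
    have h2 : finrank F (C₁ ⊔ un F i : Submodule F (Fin n → F)) = finrank F C₁ + 1 := by
      unfold un
      exact finrank_sup_span (single_notMem hd ⟨rfl, hdc⟩ i)
    rw [h1, finrank_sup_un hd hC i] at h2
    omega
  exact ⟨C₁, ⟨hfr, hdc⟩, ⟨inf_le_left, hCle⟩, ⟨inf_le_right, hCle'⟩⟩

/-- Swapping a zero coordinate with another one does not change the class. -/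
theorem class_swap_zero {d m : ℕ} (hd : 2 ≤ d) (hNI : NI F d m n)
    {c : Submodule F (Fin n → F) → Prop} (hc : EdgeInv d m c) {i j : Fin n}
    {C : Submodule F (Fin n → F)} (hC : SC d m C) (hz : ∀ v ∈ C, v i = 0) :
    c C ↔ c (mp (Equiv.swap i j) C) := by
  classical
  by_cases hij : i = j
  · subst hij
    rw [Equiv.swap_self]
    have : mp (Equiv.refl (Fin n)) C = C := mp_one C
    rw [this]
  obtain ⟨C₁, hC₁, h1, h2⟩ := mid hd hC hC hij hz hz (j := j)
    ⟨le_sup_left, le_sup_left⟩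
  have hz'' : ∀ v ∈ mp (Equiv.swap i j) C, v j = 0 := by
    intro v hv
    have h3 := hz _ (mem_mp.1 hv)
    rw [pm_apply] at h3
    simpa using h3
  exact (class_zero hd hNI hc hC hC₁ hz h1).trans
    (class_zero hd hNI hc (hC.mp _) hC₁ hz'' h2).symm

/-- Swapping two coordinates does not change the class. -/
theorem class_swap {d m : ℕ} (hd : 2 ≤ d) (hNI : NI F d m n)
    {c : Submodule F (Fin n → F) → Prop} (hc : EdgeInv d m c) (i j : Fin n)
    {C : Submodule F (Fin n → F)} (hC : SC d m C) : c C ↔ c (mp (Equiv.swap i j) C) := by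
  obtain ⟨D, hD, hCD⟩ := hNI C hC
  obtain ⟨E, hE, hED, hEz⟩ := exists_sub_ker hD (LinearMap.proj i)
  have h1 := hc C E D hC hE hD hCD hED
  have h2 := class_swap_zero hd hNI hc (j := j) hE hEz
  have h3 := hc (mp (Equiv.swap i j) E) (mp (Equiv.swap i j) C) (mp (Equiv.swap i j) D)
    (hE.mp _) (hC.mp _) (hD.mp _) (mp_mono hED) (mp_mono hCD)
  exact h1.trans (h2.trans h3)

/-- Permuting the coordinates does not change the class. -/
theorem class_perm {d m : ℕ} (hd : 2 ≤ d) (hNI : NI F d m n)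
    {c : Submodule F (Fin n → F) → Prop} (hc : EdgeInv d m c) (p : Equiv.Perm (Fin n)) :
    ∀ {C : Submodule F (Fin n → F)}, SC d m C → (c C ↔ c (mp p C)) := by
  classical
  induction p using Equiv.Perm.swap_induction_on with
  | one =>
    intro C _
    rw [mp_one]
  | swap_mul f x y hxy ih =>
    intro C hC
    rw [← mp_mp]
    exact (class_swap hd hNI hc x y hC).trans (ih (hC.mp _))

/-- Two codes vanishing at `i` which agree outside another coordinate have the same class. -/
theorem class_one {d m : ℕ} (hd : 2 ≤ d) (hNI : NI F d m n)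
    {c : Submodule F (Fin n → F) → Prop} (hc : EdgeInv d m c) {i j : Fin n} (hij : i ≠ j)
    {C C' : Submodule F (Fin n → F)} (hC : SC d m C) (hC' : SC d m C')
    (hz : ∀ v ∈ C, v i = 0) (hz' : ∀ v ∈ C', v i = 0) (hag : Ag j C C') : c C ↔ c C' := by
  classical
  obtain ⟨C₁, hC₁, h1, h2⟩ := mid hd hC hC' hij hz hz' hag
  have hz'' : ∀ v ∈ mp (Equiv.swap i j) C', v j = 0 := by
    intro v hv
    have h3 := hz' _ (mem_mp.1 hv)
    rw [pm_apply] at h3
    simpa using h3
  exact (class_zero hd hNI hc hC hC₁ hz h1).trans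
    ((class_zero hd hNI hc (hC'.mp _) hC₁ hz'' h2).symm.trans
      (class_swap_zero hd hNI hc (j := j) hC' hz').symm)

end Pool.Agent.Helper20.CG
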